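import Mathlib

/-! Elementary coprime action lemmas for abelian subgroups. -/

set_option autoImplicit false

namespace Pool.Agent.H755R3

variable {G : Type} [Group G]

/-- Two complements `a`, `h` of order dividing `k` over an abelian subgroup `M` of order
coprime to `k` are conjugate by an element of `M`. -/
theorem conj_of_coprime (M : Subgroup G) [Finite M]
    (hab : ∀ x ∈ M, ∀ y ∈ M, x * y = y * x) (a h : G) (k : ℕ)
    (hk : Nat.Coprime k (Nat.card M)) (ha : a ^ k = 1) (hh : h ^ k = 1)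
    (hnorm : ∀ m ∈ M, h * m * h⁻¹ ∈ M) (hn : h * a⁻¹ ∈ M) :
    ∃ m ∈ M, h = m * a * m⁻¹ := by
  -- the cocycle
  set n : ℕ → G := fun i => h ^ i * (a ^ i)⁻¹ with hndef
  have hn0 : n 0 = 1 := by simp [hndef]
  have hn1 : n 1 = h * a⁻¹ := by simp [hndef]
  have hstep : ∀ i, n (i + 1) = (h * n i * h⁻¹) * n 1 := by
    intro i
    simp only [hndef, pow_succ', pow_zero, mul_one, mul_inv_rev]
    group
  have hnM : ∀ i, n i ∈ M := by
    intro i
    induction i with
    | zero => rw [hn0]; exact M.one_mem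
    | succ i ih =>
      rw [hstep]
      exact M.mul_mem (hnorm _ ih) (by rw [hn1]; exact hn)
  have hnk : n k = 1 := by simp [hndef, ha, hh]
  -- the partial products
  let P : ℕ → G := fun j => Nat.rec 1 (fun i r => r * n i) j
  have hP0 : P 0 = 1 := rfl
  have hPs : ∀ j, P (j + 1) = P j * n j := fun j => rfl
  have hPM : ∀ j, P j ∈ M := by
    intro j
    induction j with
    | zero => exact M.one_mem
    | succ j ih => rw [hPs]; exact M.mul_mem ih (hnM j)
  have key : ∀ j, (h * P j * h⁻¹) * (n 1) ^ j = P j * n j := by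
    intro j
    induction j with
    | zero => simp [hP0, hn0]
    | succ j ih =>
      have e1 : h * P (j + 1) * h⁻¹ = (h * P j * h⁻¹) * (h * n j * h⁻¹) := by
        rw [hPs]; group
      have c1 : (h * n j * h⁻¹) * (n 1) ^ j = (n 1) ^ j * (h * n j * h⁻¹) :=
        hab _ (hnorm _ (hnM j)) _ (M.pow_mem (hnM 1) j)
      calc (h * P (j + 1) * h⁻¹) * (n 1) ^ (j + 1)
          = (h * P j * h⁻¹) * ((h * n j * h⁻¹) * (n 1) ^ j) * n 1 := by
            rw [e1, pow_succ]; group
        _ = ((h * P j * h⁻¹) * (n 1) ^ j) * ((h * n j * h⁻¹) * n 1) := by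
            rw [c1]; group
        _ = (P j * n j) * n (j + 1) := by rw [ih, ← hstep]
        _ = P (j + 1) * n (j + 1) := by rw [hPs]
  have hkey := key k
  rw [hnk, mul_one] at hkey
  -- invert `k` modulo the order of `M`
  obtain ⟨l, hl⟩ : ∃ l : ℕ, (n 1) ^ (k * l) = n 1 := by
    by_cases hM1 : Nat.card M = 1
    · have hs := (Subgroup.card_eq_one (H := M)).1 hM1
      have h1 : n 1 = 1 := by
        have := hnM 1
        rw [hs] at this
        exact Subgroup.mem_bot.1 this
      exact ⟨1, by rw [h1, one_pow]⟩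
    · have hlt : 1 < Nat.card M := by
        have : 0 < Nat.card M := Nat.card_pos
        omega
      obtain ⟨l, hl⟩ := Nat.exists_mul_mod_eq_one_of_coprime hk hlt
      refine ⟨l, ?_⟩
      have hc : (n 1) ^ (Nat.card M) = 1 := by
        have h3 : ((⟨n 1, hnM 1⟩ : M) ^ Nat.card M : M) = 1 := pow_card_eq_one'
        have h4 := congrArg (Subtype.val) h3
        rw [SubmonoidClass.coe_pow] at h4
        exact h4
      have h2 : k * l = Nat.card M * (k * l / Nat.card M) + 1 := by
        have := Nat.div_add_mod (k * l) (Nat.card M)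
        omega
      rw [h2, pow_add, pow_mul, hc, one_pow, one_mul, pow_one]
  refine ⟨(P k) ^ l, M.pow_mem (hPM k) l, ?_⟩
  have c2 : Commute (h * P k * h⁻¹) ((n 1) ^ k) :=
    hab _ (hnorm _ (hPM k)) _ (M.pow_mem (hnM 1) k)
  have e3 : (h * (P k) ^ l * h⁻¹) * n 1 = (P k) ^ l := by
    have e4 : h * (P k) ^ l * h⁻¹ = (h * P k * h⁻¹) ^ l := by
      rw [conj_pow]
    calc (h * (P k) ^ l * h⁻¹) * n 1 = (h * P k * h⁻¹) ^ l * ((n 1) ^ k) ^ l := by
          rw [e4, ← pow_mul, hl]
      _ = ((h * P k * h⁻¹) * (n 1) ^ k) ^ l := (c2.mul_pow l).symm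
      _ = (P k) ^ l := by rw [hkey]
  rw [hn1] at e3
  have e5 : h * (P k) ^ l = (P k) ^ l * a := by
    have : h * (P k) ^ l * h⁻¹ * (h * a⁻¹) * a = (P k) ^ l * a := by rw [e3]
    calc h * (P k) ^ l = h * (P k) ^ l * h⁻¹ * (h * a⁻¹) * a := by group
      _ = _ := this
  calc h = h * (P k) ^ l * ((P k) ^ l)⁻¹ := by group
    _ = (P k) ^ l * a * ((P k) ^ l)⁻¹ := by rw [e5]

end Pool.Agent.H755R3
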