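import Mathlib
import Pool.Agent.H755R3.Conj

/-! Crossed `G`-sets, their quotients by a normal subgroup, and the counting functions. -/

set_option autoImplicit false

namespace Pool.Agent.H755R3

/-- A crossed `G`-set: a `G`-set with an equivariant map to `G` (with the conjugation action). -/
class Crossed (G S : Type) [Group G] extends MulAction G S where
  pr' : S → G
  hpr : ∀ (g : G) (s : S), pr' (g • s) = g * pr' s * g⁻¹

/-- the equivariant map of a crossed set -/
def pr (G : Type) {S : Type} [Group G] [Crossed G S] (s : S) : G := Crossed.pr' s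

variable {G : Type} [Group G]

theorem pr_smul {S : Type} [Crossed G S] (g : G) (s : S) :
    pr G (g • s) = g * pr G s * g⁻¹ := Crossed.hpr g s

/-- the orbit relation of a subgroup -/
def nrel (N : Subgroup G) (S : Type) [MulAction G S] : Setoid S where
  r x y := ∃ n ∈ N, n • x = y
  iseqv := by
    refine ⟨fun x => ⟨1, N.one_mem, one_smul _ _⟩, ?_, ?_⟩
    · rintro x y ⟨n, hn, rfl⟩
      exact ⟨n⁻¹, N.inv_mem hn, by simp⟩
    · rintro x y z ⟨n, hn, rfl⟩ ⟨m, hm, rfl⟩
      exact ⟨m * n, N.mul_mem hm hn, by rw [mul_smul]⟩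

/-- the orbit space of a subgroup -/
def QX (N : Subgroup G) (S : Type) [MulAction G S] : Type := Quotient (nrel N S)

/-- the class of an element in the orbit space -/
def qmk (N : Subgroup G) {S : Type} [MulAction G S] (s : S) : QX N S := Quotient.mk (nrel N S) s

theorem qmk_eq {N : Subgroup G} {S : Type} [MulAction G S] {x y : S} :
    qmk N x = qmk N y ↔ ∃ n ∈ N, n • x = y := by
  constructor
  · intro h
    exact Quotient.exact h
  · intro h
    exact Quotient.sound h

theorem qmk_surj {N : Subgroup G} {S : Type} [MulAction G S] (y : QX N S) :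
    ∃ x, qmk N x = y := by
  obtain ⟨x, hx⟩ := Quotient.exists_rep y
  exact ⟨x, hx⟩

instance {N : Subgroup G} {S : Type} [MulAction G S] [Finite S] : Finite (QX N S) :=
  inferInstanceAs (Finite (Quotient (nrel N S)))

/-- the quotient group acts on the orbit space -/
instance qxAct (N : Subgroup G) [hN : N.Normal] (S : Type) [MulAction G S] :
    MulAction (G ⧸ N) (QX N S) where
  smul := Quotient.map₂ (sa := QuotientGroup.leftRel N) (sb := nrel N S) (sc := nrel N S)
    (fun g s => g • s) (by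
      intro g g' hg s s' hs
      rw [← Quotient.eq_iff_equiv, Quotient.eq''] at hg
      rw [QuotientGroup.leftRel_apply] at hg
      obtain ⟨n, hn, rfl⟩ := hs
      refine ⟨g' * n * g⁻¹, ?_, ?_⟩
      · have h1 : g' * n * g⁻¹ = (g * (g⁻¹ * g') * g⁻¹) * (g * n * g⁻¹) := by group
        rw [h1]
        exact N.mul_mem (hN.conj_mem _ hg _) (hN.conj_mem _ hn _)
      · rw [← mul_smul, ← mul_smul]
        congr 1
        group)
  one_smul := by
    intro y
    obtain ⟨x, rfl⟩ := qmk_surj y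
    change qmk N ((1 : G) • x) = qmk N x
    rw [one_smul]
  mul_smul := by
    intro a b y
    obtain ⟨x, rfl⟩ := qmk_surj y
    obtain ⟨g, rfl⟩ := QuotientGroup.mk_surjective a
    obtain ⟨h, rfl⟩ := QuotientGroup.mk_surjective b
    change qmk N ((g * h : G) • x) = qmk N (g • (h • x))
    rw [mul_smul]

theorem smul_qmk (N : Subgroup G) [N.Normal] {S : Type} [MulAction G S] (g : G) (x : S) :
    (g : G ⧸ N) • qmk N x = qmk N (g • x) := rfl

/-- the orbit space of a crossed set is a crossed set -/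
instance qxCrossed (N : Subgroup G) [hN : N.Normal] (S : Type) [Crossed G S] :
    Crossed (G ⧸ N) (QX N S) where
  pr' := Quotient.lift (fun s => ((pr G s : G) : G ⧸ N)) (by
    rintro s s' ⟨n, hn, rfl⟩
    simp only [pr_smul, QuotientGroup.mk_mul, QuotientGroup.mk_inv]
    have h1 : ((n : G) : G ⧸ N) = 1 := (QuotientGroup.eq_one_iff n).2 hn
    rw [h1]; simp)
  hpr := by
    intro a y
    obtain ⟨x, rfl⟩ := qmk_surj y
    obtain ⟨g, rfl⟩ := QuotientGroup.mk_surjective a
    change ((pr G (g • x) : G) : G ⧸ N) = _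
    rw [pr_smul]
    rfl

theorem pr_qmk (N : Subgroup G) [N.Normal] {S : Type} [Crossed G S] (x : S) :
    pr (G ⧸ N) (qmk N x) = ((pr G x : G) : G ⧸ N) := rfl

/-- pairs in the same `N`-orbit with the same image -/
def DX (N : Subgroup G) (S : Type) [Crossed G S] : Type :=
  {d : S × S // (∃ n ∈ N, n • d.1 = d.2) ∧ pr G d.1 = pr G d.2}

instance {N : Subgroup G} {S : Type} [Crossed G S] [Finite S] : Finite (DX N S) :=
  inferInstanceAs (Finite {d : S × S // (∃ n ∈ N, n • d.1 = d.2) ∧ pr G d.1 = pr G d.2})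

instance dxCrossed (N : Subgroup G) [hN : N.Normal] (S : Type) [Crossed G S] :
    Crossed G (DX N S) where
  smul g d := ⟨(g • d.1.1, g • d.1.2), by
    obtain ⟨⟨s, t⟩, ⟨n, hn, h1⟩, h2⟩ := d
    simp only at h1 h2
    refine ⟨⟨g * n * g⁻¹, hN.conj_mem _ hn _, ?_⟩, ?_⟩
    · simp only
      rw [← h1, ← mul_smul, ← mul_smul]
      congr 1
      group
    · simp only [pr_smul, h2]⟩
  one_smul := by
    rintro ⟨⟨s, t⟩, h⟩
    apply Subtype.ext
    change ((1 : G) • s, (1 : G) • t) = (s, t)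
    simp
  mul_smul := by
    rintro a b ⟨⟨s, t⟩, h⟩
    apply Subtype.ext
    change ((a * b : G) • s, (a * b : G) • t) = (a • b • s, a • b • t)
    simp [mul_smul]
  pr' d := pr G d.1.1
  hpr := by
    rintro a ⟨⟨s, t⟩, h⟩
    exact pr_smul a s

theorem smul_dx {N : Subgroup G} [N.Normal] {S : Type} [Crossed G S] (g : G) (d : DX N S) :
    (g • d).1 = (g • d.1.1, g • d.1.2) := rfl

/-- the new crossed set -/
abbrev SB (N : Subgroup G) [N.Normal] (S : Type) [Crossed G S] : Type := QX N (DX N S)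

/-- constructor of elements of `SB` -/
def smk (N : Subgroup G) [N.Normal] {S : Type} [Crossed G S] (s t : S)
    (h1 : ∃ n ∈ N, n • s = t) (h2 : pr G s = pr G t) : SB N S :=
  qmk N (⟨(s, t), h1, h2⟩ : DX N S)

/-- first projection -/
def sfst (N : Subgroup G) [N.Normal] {S : Type} [Crossed G S] : SB N S → QX N S :=
  Quotient.lift (fun d : DX N S => qmk N d.1.1) (by
    rintro d d' ⟨n, hn, rfl⟩
    exact qmk_eq.2 ⟨n, hn, rfl⟩)

theorem sfst_smk (N : Subgroup G) [N.Normal] {S : Type} [Crossed G S] (s t : S)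
    (h1 : ∃ n ∈ N, n • s = t) (h2 : pr G s = pr G t) :
    sfst N (smk N s t h1 h2) = qmk N s := rfl

theorem smul_smk (N : Subgroup G) [hN : N.Normal] {S : Type} [Crossed G S] (g : G) (s t : S)
    (h1 : ∃ n ∈ N, n • s = t) (h2 : pr G s = pr G t)
    (h1' : ∃ n ∈ N, n • (g • s) = g • t) (h2' : pr G (g • s) = pr G (g • t)) :
    (g : G ⧸ N) • smk N s t h1 h2 = smk N (g • s) (g • t) h1' h2' := rfl

theorem pr_smk (N : Subgroup G) [hN : N.Normal] {S : Type} [Crossed G S] (s t : S)
    (h1 : ∃ n ∈ N, n • s = t) (h2 : pr G s = pr G t) :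
    pr (G ⧸ N) (smk N s t h1 h2) = ((pr G s : G) : G ⧸ N) := rfl

/-- every element over the class of `s` is represented by a pair starting at `s` -/
theorem smk_rep (N : Subgroup G) [hN : N.Normal] {S : Type} [Crossed G S] (y : SB N S) (s : S)
    (hy : sfst N y = qmk N s) :
    ∃ (t : S) (h1 : ∃ n ∈ N, n • s = t) (h2 : pr G s = pr G t), y = smk N s t h1 h2 := by
  obtain ⟨⟨⟨a, b⟩, ⟨m, hm, hab⟩, h2⟩, rfl⟩ := qmk_surj y
  simp only at hab h2
  have h3 : qmk N a = qmk N s := hy
  obtain ⟨n, hn, rfl⟩ := qmk_eq.1 h3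
  refine ⟨n • b, ⟨n * m * n⁻¹, hN.conj_mem _ hm _, ?_⟩, ?_, ?_⟩
  · rw [← hab, ← mul_smul, ← mul_smul]
    congr 1; group
  · rw [pr_smul, pr_smul, h2]
  · refine qmk_eq.2 ⟨n, hn, ?_⟩
    rfl

theorem smk_inj (N : Subgroup G) [hN : N.Normal] (hab : ∀ x ∈ N, ∀ y ∈ N, x * y = y * x)
    {S : Type} [Crossed G S] (s t t' : S)
    (h1 : ∃ n ∈ N, n • s = t) (h2 : pr G s = pr G t)
    (h1' : ∃ n ∈ N, n • s = t') (h2' : pr G s = pr G t')
    (h : smk N s t h1 h2 = smk N s t' h1' h2') : t = t' := by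
  obtain ⟨n, hn, hd⟩ := qmk_eq.1 h
  have hd' : (n • s, n • t) = (s, t') := congrArg Subtype.val hd
  simp only [Prod.mk.injEq] at hd'
  obtain ⟨hs, ht⟩ := hd'
  obtain ⟨m, hm, rfl⟩ := h1
  rw [← ht, ← mul_smul, hab n hn m hm, mul_smul, hs]

/-- the number of triples `(g, s, z)` with all fixed point conditions -/
noncomputable def cnt (G S Z : Type) [Group G] [Crossed G S] [Crossed G Z] : ℕ :=
  Nat.card {t : G × S × Z // t.1 • t.2.1 = t.2.1 ∧ t.1 • t.2.2 = t.2.2 ∧
    pr G t.2.2 • t.2.1 = t.2.1 ∧ pr G t.2.1 • t.2.2 = t.2.2}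

/-- the number of pairs `(a, s)` with `a` and the image of `s` in `A` and `a` fixing `s` -/
noncomputable def fac (A : Subgroup G) (S : Type) [Crossed G S] : ℕ :=
  Nat.card {t : G × S // t.1 ∈ A ∧ pr G t.2 ∈ A ∧ t.1 • t.2 = t.2}

/-- comparison of cardinalities through fibres -/
theorem card_le_of_fibers {X Y C : Type} [Finite X] [Finite Y] (f : X → C) (g : Y → C)
    (h : ∀ c, Nat.card {x // f x = c} ≤ Nat.card {y // g y = c}) :
    Nat.card X ≤ Nat.card Y := by
  have hinj : ∀ c, ∃ φ : {x // f x = c} → {y // g y = c}, Function.Injective φ := by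
    intro c
    have h1 := h c
    have e1 := Finite.equivFin {x // f x = c}
    have e2 := Finite.equivFin {y // g y = c}
    exact ⟨fun x => e2.symm (Fin.castLE h1 (e1 x)), by
      intro x y hxy
      have := e2.symm.injective hxy
      exact e1.injective (Fin.castLE_injective h1 this)⟩
  choose φ hφ using hinj
  refine Nat.card_le_card_of_injective (fun x => (φ (f x) ⟨x, rfl⟩).1) ?_
  intro x y hxy
  simp only at hxy
  have hc : f x = f y := by
    have h1 := (φ (f x) ⟨x, rfl⟩).2
    have h2 := (φ (f y) ⟨y, rfl⟩).2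
    rw [← h1, ← h2, hxy]
  have key : ∀ (c : C) (hx : f x = c) (hy : f y = c), (φ c ⟨x, hx⟩).1 = (φ c ⟨y, hy⟩).1 → x = y := by
    intro c hx hy h3
    exact congrArg Subtype.val (hφ c (Subtype.ext h3))
  refine key (f x) rfl hc.symm ?_
  rw [hxy]
  have : ∀ (c c' : C) (h : c = c') (hx : f y = c) (hx' : f y = c'),
      (φ c ⟨y, hx⟩).1 = (φ c' ⟨y, hx'⟩).1 := by
    intro c c' h hx hx'; subst h; rfl
  exact this _ _ hc.symm _ _

end Pool.Agent.H755R3
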