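import Mathlib
import Pool.Agent.H755R3.Crossed

/-! The factor of order prime to the normal subgroup. -/

set_option autoImplicit false

namespace Pool.Agent.H755R3

variable {G : Type} [Group G]

theorem smk_fix (N : Subgroup G) [hN : N.Normal] {S : Type} [Crossed G S] (g : G) (s t : S)
    (h1 : ∃ n ∈ N, n • s = t) (h2 : pr G s = pr G t) (hg : g • s = s) :
    ∃ (h1' : ∃ n ∈ N, n • s = g • t) (h2' : pr G s = pr G (g • t)),
      (g : G ⧸ N) • smk N s t h1 h2 = smk N s (g • t) h1' h2' := by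
  obtain ⟨n, hn, hst⟩ := h1
  have h1' : ∃ n ∈ N, n • s = g • t := by
    refine ⟨g * n * g⁻¹, hN.conj_mem _ hn _, ?_⟩
    have h3 : g⁻¹ • s = s := by rw [inv_smul_eq_iff]; exact hg.symm
    rw [mul_smul, mul_smul, h3, hst]
  have h2' : pr G s = pr G (g • t) := by
    have h4 := pr_smul g s
    rw [hg] at h4
    rw [pr_smul, ← h2, ← h4]
  refine ⟨h1', h2', ?_⟩
  change qmk N _ = qmk N _
  congr 1
  apply Subtype.ext
  change (g • s, g • t) = (s, g • t)
  rw [hg]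

theorem smk_fix_iff (N : Subgroup G) [hN : N.Normal] (hab : ∀ x ∈ N, ∀ y ∈ N, x * y = y * x)
    {S : Type} [Crossed G S] (g : G) (s t : S)
    (h1 : ∃ n ∈ N, n • s = t) (h2 : pr G s = pr G t) (hg : g • s = s) :
    (g : G ⧸ N) • smk N s t h1 h2 = smk N s t h1 h2 ↔ g • t = t := by
  obtain ⟨h1', h2', h3⟩ := smk_fix N g s t h1 h2 hg
  constructor
  · intro h
    rw [h3] at h
    exact smk_inj N hab s _ _ _ _ _ _ h
  · intro h
    rw [h3]
    change qmk N _ = qmk N _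
    congr 1
    apply Subtype.ext
    change (s, g • t) = (s, t)
    rw [h]

/-- an element of the coset of `a` fixing a point can be chosen of order dividing `k` and
conjugate to `a`. -/
theorem exists_fixed [Finite G] (N : Subgroup G) [hN : N.Normal]
    (hab : ∀ x ∈ N, ∀ y ∈ N, x * y = y * x)
    (k : ℕ) (hk : Nat.Coprime k (Nat.card N)) {S : Type} [Crossed G S]
    (a : G) (ha : a ^ k = 1) (s : S) (c : G) (hc : c ∈ N) (hcs : c • a • s = s)
    (hcx : c * pr G s = pr G s * c) :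
    ∃ m ∈ N, m * pr G s = pr G s * m ∧ a • m • s = m • s := by
  set x := pr G s with hx
  set h := c * a with hh
  have hhs : h • s = s := by rw [hh, mul_smul]; exact hcs
  have hhx : h * x = x * h := by
    have h4 := pr_smul h s
    rw [hhs, ← hx] at h4
    calc h * x = h * x * h⁻¹ * h := by group
      _ = x * h := by rw [← h4]
  have hax : a * x = x * a := by
    have : a = c⁻¹ * h := by rw [hh]; group
    rw [this]
    have hcx' : c⁻¹ * x = x * c⁻¹ := by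
      calc c⁻¹ * x = c⁻¹ * (x * c) * c⁻¹ := by group
        _ = c⁻¹ * (c * x) * c⁻¹ := by rw [hcx]
        _ = x * c⁻¹ := by group
    calc c⁻¹ * h * x = c⁻¹ * (h * x) := by group
      _ = c⁻¹ * x * h := by rw [hhx]; group
      _ = x * (c⁻¹ * h) := by rw [hcx']; group
  -- the subgroup of elements of `N` commuting with `x`
  let M : Subgroup G := N ⊓ Subgroup.centralizer {x}
  have hMmem : ∀ y, y ∈ M ↔ y ∈ N ∧ y * x = x * y := by
    intro y
    simp only [M, Subgroup.mem_inf, Subgroup.mem_centralizer_singleton_iff]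
  have hMN : M ≤ N := inf_le_left
  have hMnorm : ∀ g : G, g * x = x * g → ∀ m ∈ M, g * m * g⁻¹ ∈ M := by
    intro g hg m hm
    rw [hMmem] at hm ⊢
    refine ⟨hN.conj_mem _ hm.1 _, ?_⟩
    have hg' : g⁻¹ * x = x * g⁻¹ := by
      calc g⁻¹ * x = g⁻¹ * (x * g) * g⁻¹ := by group
        _ = g⁻¹ * (g * x) * g⁻¹ := by rw [hg]
        _ = x * g⁻¹ := by group
    calc g * m * g⁻¹ * x = g * m * (g⁻¹ * x) := by group
      _ = g * (m * x) * g⁻¹ := by rw [hg']; group
      _ = (g * x) * m * g⁻¹ := by rw [hm.2]; group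
      _ = x * (g * m * g⁻¹) := by rw [hg]; group
  have hcM : c ∈ M := (hMmem c).2 ⟨hc, hcx⟩
  have hpow : ∀ j, h ^ j * (a ^ j)⁻¹ ∈ M := by
    intro j
    induction j with
    | zero => simp
    | succ j ih =>
      have e : h ^ (j + 1) * (a ^ (j + 1))⁻¹ = (h * (h ^ j * (a ^ j)⁻¹) * h⁻¹) * (h * a⁻¹) := by
        rw [pow_succ', pow_succ']; group
      rw [e]
      refine M.mul_mem (hMnorm h hhx _ ih) ?_
      have : h * a⁻¹ = c := by rw [hh]; group
      rw [this]; exact hcM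
  -- the exponent
  obtain ⟨e, he1, he2⟩ : ∃ e : ℕ, e ≡ 1 [MOD k] ∧ e ≡ 0 [MOD (Nat.card N)] := by
    obtain ⟨e, he⟩ := Nat.chineseRemainder hk 1 0
    exact ⟨e, he.1, he.2⟩
  have hae : a ^ e = a := by
    have h1 : a ^ e = a ^ 1 := by
      rw [pow_eq_pow_iff_modEq]
      exact he1.of_dvd (orderOf_dvd_of_pow_eq_one ha)
    rw [h1, pow_one]
  have hhk : (h ^ k) ^ (Nat.card N) = 1 := by
    have h1 := hpow k
    rw [ha, inv_one, mul_one] at h1
    have h3 : ((⟨h ^ k, hMN h1⟩ : N) ^ Nat.card N : N) = 1 := pow_card_eq_one'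
    have h4 := congrArg (Subtype.val) h3
    rw [SubmonoidClass.coe_pow] at h4
    exact h4
  have hhe : (h ^ e) ^ k = 1 := by
    obtain ⟨e', rfl⟩ := (Nat.modEq_zero_iff_dvd.1 he2)
    rw [← pow_mul, show Nat.card N * e' * k = k * Nat.card N * e' by ring, pow_mul, pow_mul, hhk,
      one_pow]
  have hhes : (h ^ e) • s = s := by
    have : ∀ j : ℕ, (h ^ j) • s = s := by
      intro j
      induction j with
      | zero => simp
      | succ j ih => rw [pow_succ, mul_smul, hhs, ih]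
    exact this e
  have hhex : h ^ e * x = x * h ^ e := (Commute.pow_left (show Commute h x from hhx) e)
  have hcop : Nat.Coprime k (Nat.card M) :=
    Nat.Coprime.coprime_dvd_right (Subgroup.card_dvd_of_le hMN) hk
  obtain ⟨m, hm, hme⟩ := conj_of_coprime M (fun y hy z hz => hab y (hMN hy) z (hMN hz)) a (h ^ e) k
    hcop ha hhe (hMnorm _ hhex) (by have := hpow e; rwa [hae] at this)
  have hm' := M.inv_mem hm
  refine ⟨m⁻¹, hMN hm', ((hMmem _).1 hm').2, ?_⟩
  rw [← mul_smul]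
  have h5 : a * m⁻¹ = m⁻¹ * h ^ e := by rw [hme]; group
  rw [h5, mul_smul, hhes]

theorem fac_SB_le [Finite G] (N : Subgroup G) [hN : N.Normal]
    (hab : ∀ x ∈ N, ∀ y ∈ N, x * y = y * x) (A : Subgroup G)
    (k : ℕ) (hk : Nat.Coprime k (Nat.card N)) (hA : ∀ a ∈ A, a ^ k = 1)
    (S : Type) [Finite S] [Crossed G S] (hS : ∀ s : S, pr G s ^ k = 1) :
    fac (A.map (QuotientGroup.mk' N)) (SB N S) ≤ fac A S := by
  classical
  have hAN : ∀ a ∈ A, a ∈ N → a = 1 := by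
    intro a ha haN
    have h3 : ((⟨a, haN⟩ : N) ^ Nat.card N : N) = 1 := pow_card_eq_one'
    have h4 := congrArg (Subtype.val) h3
    rw [SubmonoidClass.coe_pow] at h4
    have h5 : a ^ Nat.card N = 1 := h4
    have h6 := Nat.dvd_gcd (orderOf_dvd_of_pow_eq_one (hA a ha)) (orderOf_dvd_of_pow_eq_one h5)
    rw [hk] at h6
    exact orderOf_eq_one_iff.1 (Nat.dvd_one.1 h6)
  unfold fac
  refine card_le_of_fibers (C := (G ⧸ N) × QX N S) (fun x => (x.1.1, sfst N x.1.2))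
    (fun y => (((y.1.1 : G) : G ⧸ N), qmk N y.1.2)) ?_
  intro c
  by_cases hne : Nonempty {x : {t : (G ⧸ N) × SB N S //
      t.1 ∈ A.map (QuotientGroup.mk' N) ∧ pr (G ⧸ N) t.2 ∈ A.map (QuotientGroup.mk' N) ∧
        t.1 • t.2 = t.2} // (x.1.1, sfst N x.1.2) = c}
  swap
  · rw [not_nonempty_iff] at hne
    rw [Nat.card_of_isEmpty]
    exact Nat.zero_le _
  obtain ⟨⟨⟨⟨a1, y⟩, ha1, hyA, hfix⟩, hc⟩⟩ := hne
  simp only at ha1 hyA hfix hc
  subst hc
  obtain ⟨a, ha, rfl⟩ := ha1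
  obtain ⟨s1, hs1⟩ := qmk_surj (sfst N y)
  -- move to a point with image in `A`
  obtain ⟨s2, hs2, hs2A⟩ : ∃ s2 : S, sfst N y = qmk N s2 ∧ pr G s2 ∈ A := by
    obtain ⟨t1, h1, h2, rfl⟩ := smk_rep N y s1 hs1.symm
    obtain ⟨α, hα, hα2⟩ := hyA
    rw [pr_smk] at hα2
    have h3 : α⁻¹ * pr G s1 ∈ N := QuotientGroup.eq.1 hα2
    have h4 : pr G s1 * α⁻¹ ∈ N := by
      have := hN.conj_mem _ h3 α
      have e : pr G s1 * α⁻¹ = α * (α⁻¹ * pr G s1) * α⁻¹ := by group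
      rw [e]; exact this
    obtain ⟨m, hm, hme⟩ := conj_of_coprime N hab α (pr G s1) k hk (hA α hα) (hS s1)
      (fun m hm => hN.conj_mem _ hm _) h4
    refine ⟨m⁻¹ • s1, ?_, ?_⟩
    · rw [sfst_smk]
      exact qmk_eq.2 ⟨m⁻¹, N.inv_mem hm, rfl⟩
    · rw [pr_smul, hme]
      have : m⁻¹ * (m * α * m⁻¹) * m⁻¹⁻¹ = α := by group
      rw [this]; exact hα
  obtain ⟨s0, hs0, hs0A, has0⟩ : ∃ s0 : S, sfst N y = qmk N s0 ∧ pr G s0 ∈ A ∧ a • s0 = s0 := by
    have hfix2 : ((a : G) : G ⧸ N) • sfst N y = sfst N y := by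
      have h1 : ∀ w : SB N S, ((a : G) : G ⧸ N) • sfst N w = sfst N (((a : G) : G ⧸ N) • w) := by
        intro w
        obtain ⟨d, rfl⟩ := qmk_surj w
        rfl
      rw [h1]
      exact congrArg _ hfix
    rw [hs2, smul_qmk] at hfix2
    obtain ⟨c, hc, hcs⟩ := qmk_eq.1 hfix2
    have hcx : c * pr G s2 = pr G s2 * c := by
      set x := pr G s2 with hx
      have h1 := pr_smul c (a • s2)
      rw [hcs, pr_smul a s2, ← hx] at h1
      -- x = c * (a * x * a⁻¹) * c⁻¹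
      have h2 : c⁻¹ * x * c = a * x * a⁻¹ := by
        calc c⁻¹ * x * c = c⁻¹ * (c * (a * x * a⁻¹) * c⁻¹) * c := by rw [← h1]
          _ = a * x * a⁻¹ := by group
      have h3 : c⁻¹ * x * c * x⁻¹ ∈ A := by
        rw [h2]
        exact A.mul_mem (A.mul_mem (A.mul_mem ha hs2A) (A.inv_mem ha)) (A.inv_mem hs2A)
      have h4 : c⁻¹ * x * c * x⁻¹ ∈ N := by
        have : c⁻¹ * x * c * x⁻¹ = c⁻¹ * (x * c * x⁻¹) := by group
        rw [this]
        exact N.mul_mem (N.inv_mem hc) (hN.conj_mem _ hc _)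
      have h5 := hAN _ h3 h4
      calc c * x = c * (c⁻¹ * x * c * x⁻¹) * x := by rw [h5, mul_one]
        _ = x * c := by group
    obtain ⟨m, hm, hmx, hma⟩ := exists_fixed N hab k hk a (hA a ha) s2 c hc hcs hcx
    refine ⟨m • s2, ?_, ?_, hma⟩
    · rw [hs2]; exact qmk_eq.2 ⟨m, hm, rfl⟩
    · rw [pr_smul, hmx]
      have : pr G s2 * m * m⁻¹ = pr G s2 := by group
      rw [this]; exact hs2A
  -- the injection
  have hrep : ∀ w : SB N S, ∃ r : S, sfst N w = qmk N s0 →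
      ∃ (h1 : ∃ n ∈ N, n • s0 = r) (h2 : pr G s0 = pr G r), w = smk N s0 r h1 h2 := by
    intro w
    by_cases h : sfst N w = qmk N s0
    · obtain ⟨r, h1, h2, h3⟩ := smk_rep N w s0 h
      exact ⟨r, fun _ => ⟨h1, h2, h3⟩⟩
    · exact ⟨s0, fun h' => absurd h' h⟩
  choose ρ hρ using hrep
  have hsf : ∀ (x : {x : {t : (G ⧸ N) × SB N S //
      t.1 ∈ A.map (QuotientGroup.mk' N) ∧ pr (G ⧸ N) t.2 ∈ A.map (QuotientGroup.mk' N) ∧
        t.1 • t.2 = t.2} // (x.1.1, sfst N x.1.2) = ((QuotientGroup.mk' N) a, sfst N y)}),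
      sfst N x.1.1.2 = qmk N s0 := by
    intro x
    have := congrArg Prod.snd x.2
    exact this.trans hs0
  refine Nat.card_le_card_of_injective (fun x => ⟨⟨(a, ρ x.1.1.2), ha, ?_, ?_⟩, ?_⟩) ?_
  · obtain ⟨h1, h2, h3⟩ := hρ x.1.1.2 (hsf x)
    simp only
    rw [← h2]; exact hs0A
  · obtain ⟨h1, h2, h3⟩ := hρ x.1.1.2 (hsf x)
    simp only
    have h4 := x.1.2.2.2
    have h5 : x.1.1.1 = ((a : G) : G ⧸ N) := congrArg Prod.fst x.2
    rw [h5] at h4
    rw [h3] at h4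
    exact (smk_fix_iff N hab a s0 _ h1 h2 has0).1 h4
  · obtain ⟨h1, h2, h3⟩ := hρ x.1.1.2 (hsf x)
    simp only
    refine Prod.ext rfl ?_
    exact ((qmk_eq.2 h1).symm).trans hs0.symm
  · intro x x' hxx
    simp only [Subtype.mk.injEq, Prod.mk.injEq] at hxx
    obtain ⟨h1, h2, h3⟩ := hρ x.1.1.2 (hsf x)
    obtain ⟨h1', h2', h3'⟩ := hρ x'.1.1.2 (hsf x')
    have h5 : x.1.1.1 = ((a : G) : G ⧸ N) := congrArg Prod.fst x.2
    have h5' : x'.1.1.1 = ((a : G) : G ⧸ N) := congrArg Prod.fst x'.2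
    apply Subtype.ext
    apply Subtype.ext
    refine Prod.ext (h5.trans h5'.symm) ?_
    rw [h3, h3']
    have h6 : ρ x.1.1.2 = ρ x'.1.1.2 := hxx.2
    change qmk N _ = qmk N _
    congr 1
    apply Subtype.ext
    change (s0, _) = (s0, _)
    rw [h6]

end Pool.Agent.H755R3
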