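import Mathlib
import Pool.Agent.H755R3.FacA

/-! The main comparison. -/

set_option autoImplicit false

namespace Pool.Agent.H755R3

variable {G : Type} [Group G]

/-- transporters between points fixed by `x` can be chosen to commute with `x` -/
theorem exists_commuting [Finite G] (N : Subgroup G) [hN : N.Normal]
    (hab : ∀ x ∈ N, ∀ y ∈ N, x * y = y * x)
    (k : ℕ) (hk : Nat.Coprime k (Nat.card N)) {Z : Type} [MulAction G Z]
    (x : G) (hx : x ^ k = 1) (z0 z : Z) (n : G) (hn : n ∈ N) (hz : n • z0 = z)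
    (hxz0 : x • z0 = z0) (hxz : x • z = z) :
    ∃ m ∈ N, m * x = x * m ∧ m • z0 = z := by
  let N0 : Subgroup G := N ⊓ MulAction.stabilizer G z0
  have hN0 : ∀ y, y ∈ N0 ↔ y ∈ N ∧ y • z0 = z0 := by
    intro y
    simp only [N0, Subgroup.mem_inf, MulAction.mem_stabilizer_iff]
  have hN0N : N0 ≤ N := inf_le_left
  set h := n⁻¹ * x * n with hh
  have hhz : h • z0 = z0 := by
    rw [hh, mul_smul, mul_smul, hz, hxz, ← hz, inv_smul_smul]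
  have hxz0' : x⁻¹ • z0 = z0 := by rw [inv_smul_eq_iff]; exact hxz0.symm
  have hhz' : h⁻¹ • z0 = z0 := by rw [inv_smul_eq_iff]; exact hhz.symm
  have h1 : h * x⁻¹ ∈ N0 := by
    rw [hN0]
    constructor
    · have : h * x⁻¹ = n⁻¹ * (x * n * x⁻¹) := by rw [hh]; group
      rw [this]
      exact N.mul_mem (N.inv_mem hn) (hN.conj_mem _ hn _)
    · rw [mul_smul, hxz0', hhz]
  have h2 : ∀ m ∈ N0, h * m * h⁻¹ ∈ N0 := by
    intro m hm
    rw [hN0] at hm ⊢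
    exact ⟨hN.conj_mem _ hm.1 _, by rw [mul_smul, mul_smul, hhz', hm.2, hhz]⟩
  have hhk : h ^ k = 1 := by
    have : h = n⁻¹ * x * n⁻¹⁻¹ := by rw [hh]; group
    rw [this, conj_pow, hx]; group
  obtain ⟨m, hm, hme⟩ := conj_of_coprime N0 (fun y hy z hz => hab y (hN0N hy) z (hN0N hz)) x h k
    (Nat.Coprime.coprime_dvd_right (Subgroup.card_dvd_of_le hN0N) hk) hx hhk h2 h1
  refine ⟨n * m, N.mul_mem hn (hN0N hm), ?_, ?_⟩
  · have h3 : x * n = n * h := by rw [hh]; group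
    calc n * m * x = n * (m * x * m⁻¹) * m := by group
      _ = n * h * m := by rw [← hme]
      _ = x * (n * m) := by rw [← h3]; group
  · rw [mul_smul, ((hN0 m).1 hm).2, hz]

theorem quot_fix {S : Type} [MulAction G S] (M : Subgroup G)
    (hab : ∀ x ∈ M, ∀ y ∈ M, x * y = y * x) (v : G) (hv : ∀ m ∈ M, v * m * v⁻¹ ∈ M)
    (s : S) (hs : v • s = s) (c u1 u2 : G) (hc : c ∈ M) (h1 : u1 ∈ M) (h2 : u2 ∈ M)
    (e1 : v • u1 • s = c • u1 • s) (e2 : v • u2 • s = c • u2 • s) :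
    v • (u1 * u2⁻¹) • s = (u1 * u2⁻¹) • s := by
  have hs' : v⁻¹ • s = s := by rw [inv_smul_eq_iff]; exact hs.symm
  have a1 : (u1⁻¹ * c⁻¹ * (v * u1 * v⁻¹)) • s = s := by
    rw [mul_smul, mul_smul, mul_smul (v * u1), hs', mul_smul, e1, inv_smul_smul, inv_smul_smul]
  have a2 : (u2⁻¹ * c⁻¹ * (v * u2 * v⁻¹)) • s = s := by
    rw [mul_smul, mul_smul, mul_smul (v * u2), hs', mul_smul, e2, inv_smul_smul, inv_smul_smul]
  have a2' : (u2⁻¹ * c⁻¹ * (v * u2 * v⁻¹))⁻¹ • s = s := by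
    rw [inv_smul_eq_iff]; exact a2.symm
  have a3 : ((u1⁻¹ * c⁻¹ * (v * u1 * v⁻¹)) * (u2⁻¹ * c⁻¹ * (v * u2 * v⁻¹))⁻¹) • s = s := by
    rw [mul_smul, a2', a1]
  set p1 := v * u1 * v⁻¹ with hp1
  set p2 := v * u2 * v⁻¹ with hp2
  have m1 : p1 ∈ M := hv _ h1
  have m2 : p2 ∈ M := hv _ h2
  have e3 : (u1⁻¹ * c⁻¹ * p1) * (u2⁻¹ * c⁻¹ * p2)⁻¹ = (u1 * u2⁻¹)⁻¹ * (p1 * p2⁻¹) := by
    let _ : CommGroup M := { (inferInstance : Group M) with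
      mul_comm := fun a b => Subtype.ext (hab a a.2 b b.2) }
    have e4 : ((⟨u1, h1⟩ : M)⁻¹ * (⟨c, hc⟩ : M)⁻¹ * ⟨p1, m1⟩) *
        ((⟨u2, h2⟩ : M)⁻¹ * (⟨c, hc⟩ : M)⁻¹ * ⟨p2, m2⟩)⁻¹ =
        ((⟨u1, h1⟩ : M) * (⟨u2, h2⟩ : M)⁻¹)⁻¹ * (⟨p1, m1⟩ * (⟨p2, m2⟩ : M)⁻¹) := by
      generalize (⟨u1, h1⟩ : M) = a1
      generalize (⟨u2, h2⟩ : M) = a2
      generalize (⟨c, hc⟩ : M) = a3
      generalize (⟨p1, m1⟩ : M) = a4
      generalize (⟨p2, m2⟩ : M) = a5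
      simp only [mul_inv_rev, inv_inv]
      calc a1⁻¹ * a3⁻¹ * a4 * (a5⁻¹ * (a3 * a2)) = (a3⁻¹ * a3) * (a2 * a1⁻¹ * (a4 * a5⁻¹)) := by
            simp only [mul_comm, mul_left_comm, mul_assoc]
        _ = a2 * a1⁻¹ * (a4 * a5⁻¹) := by rw [inv_mul_cancel, one_mul]
    exact congrArg Subtype.val e4
  rw [e3, mul_smul, inv_smul_eq_iff] at a3
  have e5 : p1 * p2⁻¹ = v * (u1 * u2⁻¹) * v⁻¹ := by rw [hp1, hp2]; group
  rw [e5, mul_smul, mul_smul, hs'] at a3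
  exact a3

end Pool.Agent.H755R3
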