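import Mathlib
import Pool.Agent.H755R3.Crossed

/-! The factor containing the normal subgroup. -/

set_option autoImplicit false

namespace Pool.Agent.H755R3

variable {G : Type} [Group G]

theorem fac_quot [Finite G] (N : Subgroup G) [hN : N.Normal] (B : Subgroup G) (hNB : N ≤ B)
    (Z : Type) [Finite Z] [Crossed G Z] :
    Nat.card N * fac (B.map (QuotientGroup.mk' N)) (QX N Z) ≤ fac B Z := by
  classical
  unfold fac
  rw [← Nat.card_prod]
  refine card_le_of_fibers (C := (G ⧸ N) × QX N Z) (fun x => x.2.1)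
    (fun y => (((y.1.1 : G) : G ⧸ N), qmk N y.1.2)) ?_
  intro c
  by_cases hne : Nonempty {x : N × {t : (G ⧸ N) × QX N Z //
      t.1 ∈ B.map (QuotientGroup.mk' N) ∧ pr (G ⧸ N) t.2 ∈ B.map (QuotientGroup.mk' N) ∧
        t.1 • t.2 = t.2} // x.2.1 = c}
  swap
  · rw [not_nonempty_iff] at hne
    rw [Nat.card_of_isEmpty]
    exact Nat.zero_le _
  obtain ⟨⟨⟨n0, ⟨⟨b1, z1⟩, hb1, hz1, hfix⟩⟩, hc⟩⟩ := hne
  simp only at hb1 hz1 hfix hc
  subst hc
  obtain ⟨z0, rfl⟩ := qmk_surj z1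
  obtain ⟨b, hb, rfl⟩ := hb1
  have hz0B : pr G z0 ∈ B := by
    obtain ⟨b', hb', h1⟩ := hz1
    rw [pr_qmk] at h1
    have h2 : b'⁻¹ * pr G z0 ∈ N := QuotientGroup.eq.1 h1
    have h3 : pr G z0 = b' * (b'⁻¹ * pr G z0) := by group
    rw [h3]
    exact B.mul_mem hb' (hNB h2)
  -- adjust `b` so that it fixes `z0`
  have hfix' : qmk N (b • z0) = qmk N z0 := hfix
  obtain ⟨m, hm, hmz⟩ := qmk_eq.1 hfix'
  set b0 : G := m * b with hb0
  have hb0B : b0 ∈ B := B.mul_mem (hNB hm) hb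
  have hb0z : b0 • z0 = z0 := by rw [hb0, mul_smul, hmz]
  have hb0c : ((b0 : G) : G ⧸ N) = ((b : G) : G ⧸ N) := by
    rw [hb0, QuotientGroup.mk_mul, (QuotientGroup.eq_one_iff m).2 hm, one_mul]
  have hch : ∀ z' : Z, ∃ n : G, (∃ m ∈ N, m • z0 = z') → n ∈ N ∧ n • z0 = z' := by
    intro z'
    by_cases h : ∃ m ∈ N, m • z0 = z'
    · obtain ⟨m, hm, h2⟩ := h
      exact ⟨m, fun _ => ⟨hm, h2⟩⟩
    · exact ⟨1, fun h' => absurd h' h⟩
  choose σ hσ using hch
  refine le_trans (Nat.card_le_card_of_injective (β := N) (fun x => x.1.1) ?_) ?_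
  · rintro ⟨⟨x1, x2⟩, hx⟩ ⟨⟨y1, y2⟩, hy⟩ hxy
    simp only at hx hy hxy
    subst hxy
    have : x2 = y2 := Subtype.ext (hx.trans hy.symm)
    subst this
    rfl
  · refine Nat.card_le_card_of_injective (fun e => ⟨⟨(σ ((e : G) • z0) * b0 *
        ((σ ((e : G) • z0))⁻¹ * e) * (σ ((e : G) • z0))⁻¹, (e : G) • z0), ?_, ?_, ?_⟩, ?_⟩) ?_
    · simp only
      have h1 := (hσ ((e : G) • z0) ⟨e, e.2, rfl⟩).1
      exact B.mul_mem (B.mul_mem (B.mul_mem (hNB h1) hb0B) (B.mul_mem (B.inv_mem (hNB h1))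
        (hNB e.2))) (B.inv_mem (hNB h1))
    · simp only [pr_smul]
      exact B.mul_mem (B.mul_mem (hNB e.2) hz0B) (B.inv_mem (hNB e.2))
    · simp only
      have h2 := (hσ ((e : G) • z0) ⟨e, e.2, rfl⟩).2
      set s := σ ((e : G) • z0) with hs
      have h3 : s⁻¹ • ((e : G) • z0) = z0 := by
        rw [inv_smul_eq_iff]; exact h2.symm
      calc (s * b0 * (s⁻¹ * (e : G)) * s⁻¹) • (e : G) • z0
          = s • b0 • s⁻¹ • (e : G) • (s⁻¹ • ((e : G) • z0)) := by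
            simp only [mul_smul]
        _ = s • z0 := by rw [h3, h3, hb0z]
        _ = (e : G) • z0 := h2
    · simp only
      have h1 := (hσ ((e : G) • z0) ⟨e, e.2, rfl⟩).1
      refine Prod.ext ?_ ?_
      · simp only [QuotientGroup.mk_mul, QuotientGroup.mk_inv]
        rw [(QuotientGroup.eq_one_iff _).2 h1, (QuotientGroup.eq_one_iff _).2 e.2, hb0c]
        simp
      · exact (qmk_eq.2 ⟨(e : G), e.2, rfl⟩).symm
    · intro e e' hee
      simp only [Subtype.mk.injEq, Prod.mk.injEq] at hee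
      obtain ⟨h1, h2⟩ := hee
      rw [← h2] at h1
      have h3 := mul_left_cancel (mul_left_cancel (mul_right_cancel h1))
      exact Subtype.ext h3

end Pool.Agent.H755R3
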