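import Mathlib
import Pool.Agent.H755R3.Cnt

/-! The main inequality `cnt G S Z ≤ |N| * cnt (G/N) (SB N S) (QX N Z)`. -/

set_option autoImplicit false

namespace Pool.Agent.H755R3

variable {G : Type} [Group G]

theorem comm_inv_left {a b : G} (h : a * b = b * a) : a⁻¹ * b = b * a⁻¹ := by
  calc a⁻¹ * b = a⁻¹ * (b * a) * a⁻¹ := by group
    _ = a⁻¹ * (a * b) * a⁻¹ := by rw [h]
    _ = b * a⁻¹ := by group

theorem comm_mul_left {a b c : G} (h : a * c = c * a) (h' : b * c = c * b) :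
    (a * b) * c = c * (a * b) := by
  calc (a * b) * c = a * (b * c) := by group
    _ = (a * c) * b := by rw [h']; group
    _ = c * (a * b) := by rw [h]; group

theorem comm_of_fix {S : Type} [Crossed G S] (g : G) (s : S) (h : g • s = s) :
    g * pr G s = pr G s * g := by
  have h1 := pr_smul g s
  rw [h] at h1
  calc g * pr G s = g * pr G s * g⁻¹ * g := by group
    _ = pr G s * g := by rw [← h1]

theorem cnt_le [Finite G] (N : Subgroup G) [hN : N.Normal]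
    (hab : ∀ x ∈ N, ∀ y ∈ N, x * y = y * x)
    (k : ℕ) (hk : Nat.Coprime k (Nat.card N))
    (S Z : Type) [Finite S] [Finite Z] [Crossed G S] [Crossed G Z] (hS : ∀ s : S, pr G s ^ k = 1) :
    cnt G S Z ≤ Nat.card N * cnt (G ⧸ N) (SB N S) (QX N Z) := by
  classical
  unfold cnt
  rw [← Nat.card_prod]
  refine card_le_of_fibers (C := (G ⧸ N) × QX N S × QX N Z)
    (fun t => (((t.1.1 : G) : G ⧸ N), qmk N t.1.2.1, qmk N t.1.2.2))
    (fun y => (y.2.1.1, sfst N y.2.1.2.1, y.2.1.2.2)) ?_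
  intro c
  by_cases hne : Nonempty {t : {t : G × S × Z // t.1 • t.2.1 = t.2.1 ∧ t.1 • t.2.2 = t.2.2 ∧
      pr G t.2.2 • t.2.1 = t.2.1 ∧ pr G t.2.1 • t.2.2 = t.2.2} //
      (((t.1.1 : G) : G ⧸ N), qmk N t.1.2.1, qmk N t.1.2.2) = c}
  swap
  · rw [not_nonempty_iff] at hne
    rw [Nat.card_of_isEmpty]
    exact Nat.zero_le _
  obtain ⟨⟨⟨⟨g0, s0, z0⟩, hgs, hgz, hvs, hxz⟩, hc⟩⟩ := hne
  simp only at hgs hgz hvs hxz hc
  subst hc
  set x := pr G s0 with hx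
  set v := pr G z0 with hv
  have hgx : g0 * x = x * g0 := comm_of_fix g0 s0 hgs
  have hvx : v * x = x * v := comm_of_fix v s0 hvs
  -- elements of `N` commuting with `x`
  let M : Subgroup G := N ⊓ Subgroup.centralizer {x}
  have hM : ∀ y, y ∈ M ↔ y ∈ N ∧ y * x = x * y := by
    intro y
    simp only [M, Subgroup.mem_inf, Subgroup.mem_centralizer_singleton_iff]
  have habM : ∀ a ∈ M, ∀ b ∈ M, a * b = b * a := fun a ha b hb =>
    hab a ((hM a).1 ha).1 b ((hM b).1 hb).1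
  have hMnorm : ∀ g : G, g * x = x * g → ∀ m ∈ M, g * m * g⁻¹ ∈ M := by
    intro g hg m hm
    rw [hM] at hm ⊢
    exact ⟨hN.conj_mem _ hm.1 _, comm_mul_left (comm_mul_left hg hm.2) (comm_inv_left hg)⟩
  let K : Subgroup G := M ⊓ MulAction.stabilizer G z0
  have hK : ∀ y, y ∈ K ↔ y ∈ M ∧ y • z0 = z0 := by
    intro y
    simp only [K, Subgroup.mem_inf, MulAction.mem_stabilizer_iff]
  -- choice functions
  have hσ' : ∀ s : S, ∃ n : G, (∃ m ∈ N, m • s0 = s) → n ∈ N ∧ n • s0 = s := by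
    intro s
    by_cases h : ∃ m ∈ N, m • s0 = s
    · obtain ⟨m, hm, h2⟩ := h
      exact ⟨m, fun _ => ⟨hm, h2⟩⟩
    · exact ⟨1, fun h' => absurd h' h⟩
  choose σ hσ using hσ'
  have hτ' : ∀ z : Z, ∃ m : G, ((∃ n ∈ N, n • z0 = z) ∧ x • z = z) → m ∈ M ∧ m • z0 = z := by
    intro z
    by_cases h : (∃ n ∈ N, n • z0 = z) ∧ x • z = z
    · obtain ⟨⟨n, hn, h1⟩, h2⟩ := h
      obtain ⟨m, hm, hmx, hmz⟩ := exists_commuting N hab k hk x (hS s0) z0 z n hn h1 hxz h2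
      exact ⟨m, fun _ => ⟨(hM m).2 ⟨hm, hmx⟩, hmz⟩⟩
    · exact ⟨1, fun h' => absurd h' h⟩
  choose τ hτ using hτ'
  have hμ' : ∀ κ : G, ∃ u : G, (∃ m ∈ M, v • m⁻¹ • s0 = m⁻¹ • s0 ∧ g0 • m⁻¹ • s0 = κ⁻¹ • m⁻¹ • s0) →
      u ∈ M ∧ v • u⁻¹ • s0 = u⁻¹ • s0 ∧ g0 • u⁻¹ • s0 = κ⁻¹ • u⁻¹ • s0 := by
    intro κ
    by_cases h : ∃ m ∈ M, v • m⁻¹ • s0 = m⁻¹ • s0 ∧ g0 • m⁻¹ • s0 = κ⁻¹ • m⁻¹ • s0
    · obtain ⟨m, hm, h1, h2⟩ := h
      exact ⟨m, fun _ => ⟨hm, h1, h2⟩⟩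
    · exact ⟨1, fun h' => absurd h' h⟩
  choose μ hμ using hμ'
  have hρ' : ∀ s : S, ∃ m : G, (∃ n ∈ M, n • s0 = s) → m ∈ M ∧ m • s0 = s := by
    intro s
    by_cases h : ∃ n ∈ M, n • s0 = s
    · obtain ⟨m, hm, h2⟩ := h
      exact ⟨m, fun _ => ⟨hm, h2⟩⟩
    · exact ⟨1, fun h' => absurd h' h⟩
  choose ρ hρ using hρ'
  -- the data attached to an element of the fibre
  have main : ∀ (κ : K) (g : G) (s : S) (z : Z), g • s = s → g • z = z → pr G z • s = s →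
      pr G s • z = z → ((g : G) : G ⧸ N) = ((g0 : G) : G ⧸ N) → qmk N s = qmk N s0 →
      qmk N z = qmk N z0 →
      ∃ (n1 m g'' : G) (z'' : Z) (k' : K) (e : N) (r : S) (h1 : ∃ n ∈ N, n • s0 = r)
        (h2 : pr G s0 = pr G r),
        n1 = σ s ∧ s = (e : G) • s0 ∧ z = n1 • z'' ∧ m = τ z'' * κ ∧ z'' = m • z0 ∧
        g = n1 * g'' * n1⁻¹ ∧ g'' = m * k' * g0 * m⁻¹ ∧ r = (μ k' * m⁻¹) • s0 ∧
        (e : G) = n1 * ((ρ r)⁻¹ * (μ k' * m⁻¹)) ∧ g0 • r = r ∧ v • r = r := by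
    intro κ g s z egs egz evs exz hg hs hz
    obtain ⟨n, hn, hns⟩ := qmk_eq.1 hs.symm
    obtain ⟨hn1, hn1s⟩ := hσ s ⟨n, hn, hns⟩
    set n1 := σ s with hn1def
    have hn1s' : n1⁻¹ • s = s0 := by rw [inv_smul_eq_iff]; exact hn1s.symm
    set z'' := n1⁻¹ • z with hz''
    set g'' := n1⁻¹ * g * n1 with hg''
    have eg''s : g'' • s0 = s0 := by
      rw [hg'', mul_smul, mul_smul, hn1s, egs, hn1s']
    have hn1z : n1 • z'' = z := by rw [hz'', smul_inv_smul]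
    have eg''z : g'' • z'' = z'' := by
      rw [hg'', mul_smul, mul_smul, hn1z, egz]
    have hprz : pr G z'' = n1⁻¹ * pr G z * n1 := by
      rw [hz'', pr_smul, inv_inv]
    have hprs : pr G s = n1 * x * n1⁻¹ := by
      rw [← hn1s, pr_smul]
    have hz''s0 : pr G z'' • s0 = s0 := by
      rw [hprz, mul_smul, mul_smul, hn1s, evs, hn1s']
    have hxz'' : x • z'' = z'' := by
      have h1 : x = n1⁻¹ * pr G s * n1 := by rw [hprs]; group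
      rw [h1, mul_smul, mul_smul, hn1z, exz]
    have hz''0 : ∃ n ∈ N, n • z0 = z'' := by
      obtain ⟨n', hn', hnz⟩ := qmk_eq.1 hz.symm
      exact ⟨n1⁻¹ * n', N.mul_mem (N.inv_mem hn1) hn', by rw [mul_smul, hnz]⟩
    obtain ⟨hτM, hτz⟩ := hτ z'' ⟨hz''0, hxz''⟩
    have hκ := (hK κ).1 κ.2
    set m := τ z'' * κ with hm
    have hmM : m ∈ M := M.mul_mem hτM hκ.1
    have hmz : m • z0 = z'' := by rw [hm, mul_smul, hκ.2, hτz]
    have hmz' : m⁻¹ • z'' = z0 := by rw [inv_smul_eq_iff]; exact hmz.symm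
    have hg''x : g'' * x = x * g'' := comm_of_fix g'' s0 eg''s
    have hg0z' : g0⁻¹ • z0 = z0 := by rw [inv_smul_eq_iff]; exact hgz.symm
    have hg''s' : g''⁻¹ • s0 = s0 := by rw [inv_smul_eq_iff]; exact eg''s.symm
    -- the element of `K`
    have hkK : m⁻¹ * g'' * m * g0⁻¹ ∈ K := by
      rw [hK]
      constructor
      · rw [hM]
        constructor
        · rw [← QuotientGroup.eq_one_iff]
          simp only [QuotientGroup.mk_mul, QuotientGroup.mk_inv, hg'']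
          rw [(QuotientGroup.eq_one_iff m).2 ((hM m).1 hmM).1,
            (QuotientGroup.eq_one_iff n1).2 hn1, hg]
          group
        · exact comm_mul_left (comm_mul_left (comm_mul_left (comm_inv_left ((hM m).1 hmM).2) hg''x)
            ((hM m).1 hmM).2) (comm_inv_left hgx)
      · rw [mul_smul, mul_smul, mul_smul, hg0z', hmz, eg''z, hmz']
    set k' : K := ⟨m⁻¹ * g'' * m * g0⁻¹, hkK⟩ with hk'
    have hcond : ∃ m ∈ M, v • m⁻¹ • s0 = m⁻¹ • s0 ∧ g0 • m⁻¹ • s0 = (k' : G)⁻¹ • m⁻¹ • s0 := by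
      refine ⟨m, hmM, ?_, ?_⟩
      · have h1 : pr G z'' = m * v * m⁻¹ := by rw [← hmz, pr_smul]
        rw [h1, mul_smul, mul_smul, smul_eq_iff_eq_inv_smul] at hz''s0
        exact hz''s0
      · rw [hk']
        simp only [← mul_smul]
        have h1 : (m⁻¹ * g'' * m * g0⁻¹)⁻¹ * m⁻¹ = g0 * m⁻¹ * g''⁻¹ := by group
        rw [h1, mul_smul _ g''⁻¹, hg''s']
    obtain ⟨hμM, hμv, hμg⟩ := hμ k' hcond
    obtain ⟨m', hm'M, hm'v, hm'g⟩ := hcond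
    clear hm'M hm'v hm'g m'
    have hcondv : v • m⁻¹ • s0 = m⁻¹ • s0 := by
      have h1 : pr G z'' = m * v * m⁻¹ := by rw [← hmz, pr_smul]
      rw [h1, mul_smul, mul_smul, smul_eq_iff_eq_inv_smul] at hz''s0
      exact hz''s0
    have hcondg : g0 • m⁻¹ • s0 = (k' : G)⁻¹ • m⁻¹ • s0 := by
      rw [hk']
      simp only [← mul_smul]
      have h1 : (m⁻¹ * g'' * m * g0⁻¹)⁻¹ * m⁻¹ = g0 * m⁻¹ * g''⁻¹ := by group
      rw [h1, mul_smul _ g''⁻¹, hg''s']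
    have hcomm : μ k' * m⁻¹ = m⁻¹ * (μ k')⁻¹⁻¹ := by
      rw [inv_inv]; exact habM _ hμM _ (M.inv_mem hmM)
    have hgr : g0 • (μ k' * m⁻¹) • s0 = (μ k' * m⁻¹) • s0 := by
      rw [hcomm]
      exact quot_fix M habM g0 (hMnorm g0 hgx) s0 hgs (k' : G)⁻¹ m⁻¹ (μ k')⁻¹
        (M.inv_mem ((hK _).1 k'.2).1) (M.inv_mem hmM) (M.inv_mem hμM) hcondg hμg
    have hvr : v • (μ k' * m⁻¹) • s0 = (μ k' * m⁻¹) • s0 := by
      rw [hcomm]
      exact quot_fix M habM v (hMnorm v hvx) s0 hvs 1 m⁻¹ (μ k')⁻¹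
        M.one_mem (M.inv_mem hmM) (M.inv_mem hμM) (by rw [one_smul]; exact hcondv)
        (by rw [one_smul]; exact hμv)
    have hwM : μ k' * m⁻¹ ∈ M := M.mul_mem hμM (M.inv_mem hmM)
    set r := (μ k' * m⁻¹) • s0 with hr
    obtain ⟨hρM, hρs⟩ := hρ r ⟨_, hwM, hr.symm⟩
    have huM : (ρ r)⁻¹ * (μ k' * m⁻¹) ∈ M := M.mul_mem (M.inv_mem hρM) hwM
    have hus : ((ρ r)⁻¹ * (μ k' * m⁻¹)) • s0 = s0 := by
      rw [mul_smul, ← hr, inv_smul_eq_iff]; exact hρs.symm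
    have heN : n1 * ((ρ r)⁻¹ * (μ k' * m⁻¹)) ∈ N := N.mul_mem hn1 ((hM _).1 huM).1
    refine ⟨n1, m, g'', z'', k', ⟨_, heN⟩, r, ⟨_, ((hM _).1 hwM).1, hr.symm⟩, ?_, rfl, ?_,
      hn1z.symm, rfl, hmz.symm, ?_, ?_, rfl, rfl, hgr, hvr⟩
    · rw [hr, pr_smul, ← hx]
      have := ((hM _).1 hwM).2
      rw [this]; group
    · simp only
      rw [mul_smul, hus, hn1s]
    · rw [hg'']; group
    · rw [hk']; simp only; group
  have hKpos : 0 < Nat.card K := Nat.card_pos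
  refine Nat.le_of_mul_le_mul_left ?_ hKpos
  rw [← Nat.card_prod, ← Nat.card_prod]
  -- the relation between input and output
  have hex : ∀ w : K × {t : {t : G × S × Z // t.1 • t.2.1 = t.2.1 ∧ t.1 • t.2.2 = t.2.2 ∧
      pr G t.2.2 • t.2.1 = t.2.1 ∧ pr G t.2.1 • t.2.2 = t.2.2} //
      (((t.1.1 : G) : G ⧸ N), qmk N t.1.2.1, qmk N t.1.2.2) =
        (((g0 : G) : G ⧸ N), qmk N s0, qmk N z0)},
      ∃ out : K × {y : N × {t : (G ⧸ N) × SB N S × QX N Z // t.1 • t.2.1 = t.2.1 ∧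
        t.1 • t.2.2 = t.2.2 ∧ pr (G ⧸ N) t.2.2 • t.2.1 = t.2.1 ∧
        pr (G ⧸ N) t.2.1 • t.2.2 = t.2.2} //
        (y.2.1.1, sfst N y.2.1.2.1, y.2.1.2.2) = (((g0 : G) : G ⧸ N), qmk N s0, qmk N z0)},
      ∃ (n1 m g'' : G) (z'' : Z) (k' : K) (e : N) (r : S) (h1 : ∃ n ∈ N, n • s0 = r)
        (h2 : pr G s0 = pr G r),
        (n1 = σ w.2.1.1.2.1 ∧ w.2.1.1.2.1 = (e : G) • s0 ∧ w.2.1.1.2.2 = n1 • z'' ∧
        m = τ z'' * w.1 ∧ z'' = m • z0 ∧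
        w.2.1.1.1 = n1 * g'' * n1⁻¹ ∧ g'' = m * k' * g0 * m⁻¹ ∧
        (e : G) = n1 * ((ρ r)⁻¹ * (μ k' * m⁻¹))) ∧
        (out.1 = k' ∧ out.2.1.1 = e ∧ out.2.1.2.1.2.1 = smk N s0 r h1 h2) := by
    rintro ⟨κ, ⟨⟨⟨g, s, z⟩, egs, egz, evs, exz⟩, hc⟩⟩
    simp only [Prod.mk.injEq] at egs egz evs exz hc
    obtain ⟨n1, m, g'', z'', k', e, r, h1, h2, a1, a2, a3, a4, a5, a6, a7, a8, a9, a10, a11⟩ :=
      main κ g s z egs egz evs exz hc.1 hc.2.1 hc.2.2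
    refine ⟨(k', ⟨(e, ⟨(((g0 : G) : G ⧸ N), smk N s0 r h1 h2, qmk N z0), ?_, ?_, ?_, ?_⟩), ?_⟩),
      n1, m, g'', z'', k', e, r, h1, h2, ⟨a1, a2, a3, a4, a5, a6, a7, a9⟩, rfl, rfl, rfl⟩
    · exact (smk_fix_iff N hab g0 s0 r h1 h2 hgs).2 a10
    · simp only
      rw [smul_qmk, hgz]
    · simp only
      rw [pr_qmk]
      exact (smk_fix_iff N hab v s0 r h1 h2 hvs).2 a11
    · simp only
      rw [pr_smk, smul_qmk, ← hx, hxz]
    · rfl
  choose φ hφ using hex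
  refine Nat.card_le_card_of_injective φ ?_
  intro w w' hww
  obtain ⟨n1, m, g'', z'', k', e, r, h1, h2, ⟨a1, a2, a3, a4, a5, a6, a7, a9⟩, b1, b2, b3⟩ := hφ w
  obtain ⟨n1', m', g''', z''', k'', e', r', h1', h2', ⟨a1', a2', a3', a4', a5', a6', a7', a9'⟩,
    b1', b2', b3'⟩ := hφ w'
  rw [hww] at b1 b2 b3
  rw [b1] at b1'
  rw [b2] at b2'
  rw [b3] at b3'
  have hr : r = r' := smk_inj N hab s0 r r' h1 h2 h1' h2' b3'
  subst b1' b2' hr
  have es : w.2.1.1.2.1 = w'.2.1.1.2.1 := a2.trans a2'.symm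
  have en : n1 = n1' := by rw [a1, a1', es]
  subst en
  have em : m = m' := by
    rw [a9] at a9'
    have h3 := mul_left_cancel (mul_left_cancel (mul_left_cancel a9'))
    exact inv_injective h3
  subst em
  have ez : z'' = z''' := a5.trans a5'.symm
  subst ez
  have ezz : w.2.1.1.2.2 = w'.2.1.1.2.2 := a3.trans a3'.symm
  have eκ : w.1 = w'.1 := by
    rw [a4] at a4'
    exact Subtype.ext (mul_left_cancel a4')
  have eg : w.2.1.1.1 = w'.2.1.1.1 := by rw [a6, a6', a7, a7']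
  refine Prod.ext eκ ?_
  apply Subtype.ext
  apply Subtype.ext
  exact Prod.ext eg (Prod.ext es ezz)

end Pool.Agent.H755R3
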