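import Mathlib
import Pool.Agent.H755R3.Main1
import Pool.Agent.H755R3.FacB

/-! The inequality for all finite solvable groups. -/

set_option autoImplicit false

open scoped commutatorElement

namespace Pool.Agent.H755R3

variable {G : Type} [Group G]

theorem cnt_comm (G S Z : Type) [Group G] [Finite G] [Finite S] [Finite Z] [Crossed G S]
    [Crossed G Z] : cnt G S Z ≤ cnt G Z S := by
  unfold cnt
  refine Nat.card_le_card_of_injective
    (fun t => ⟨(t.1.1, t.1.2.2, t.1.2.1), t.2.2.1, t.2.1, t.2.2.2.2, t.2.2.2.1⟩) ?_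
  intro t t' h
  simp only [Subtype.mk.injEq, Prod.mk.injEq] at h
  apply Subtype.ext
  exact Prod.ext h.1 (Prod.ext h.2.2 h.2.1)

/-- every nontrivial finite solvable group has a nontrivial normal elementary abelian
`p`-subgroup -/
theorem exists_normal_pgroup (G : Type) [Group G] [Finite G] [Group.IsSolvable G] [Nontrivial G] :
    ∃ (p : ℕ) (_ : p.Prime) (N : Subgroup G) (_ : N.Normal), N ≠ ⊥ ∧
      (∀ x ∈ N, ∀ y ∈ N, x * y = y * x) ∧ ∃ j, Nat.card N = p ^ j := by
  classical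
  obtain ⟨n, hn⟩ := (Group.isSolvable_def G).1 inferInstance
  -- the first trivial term
  have hex : ∃ n, derivedSeries G n = ⊥ := ⟨n, hn⟩
  set m := Nat.find hex with hm
  have hmbot : derivedSeries G m = ⊥ := Nat.find_spec hex
  have hm0 : m ≠ 0 := by
    intro h0
    rw [h0, derivedSeries_zero] at hmbot
    exact absurd hmbot top_ne_bot
  obtain ⟨r, hr⟩ := Nat.exists_eq_succ_of_ne_zero hm0
  have hrne : derivedSeries G r ≠ ⊥ := Nat.find_min hex (by omega)
  set D := derivedSeries G r with hD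
  have hDab : ∀ x ∈ D, ∀ y ∈ D, x * y = y * x := by
    intro x hx y hy
    have h1 : ⁅x, y⁆ ∈ derivedSeries G (r + 1) := by
      rw [derivedSeries_succ]
      exact Subgroup.commutator_mem_commutator hx hy
    have h2 : r + 1 = m := by omega
    rw [h2, hmbot, Subgroup.mem_bot, commutatorElement_eq_one_iff_mul_comm] at h1
    exact h1
  have hDn : D.Normal := inferInstance
  have hDcard : Nat.card D ≠ 1 := by
    intro h
    exact hrne (Subgroup.card_eq_one.1 h)
  obtain ⟨p, hp, hpd⟩ := Nat.exists_prime_and_dvd hDcard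
  have _ : Fact p.Prime := ⟨hp⟩
  let N : Subgroup G :=
    { carrier := {x | x ∈ D ∧ x ^ p = 1}
      one_mem' := ⟨D.one_mem, one_pow _⟩
      mul_mem' := by
        rintro a b ⟨ha, ha'⟩ ⟨hb, hb'⟩
        refine ⟨D.mul_mem ha hb, ?_⟩
        rw [(show Commute a b from hDab a ha b hb).mul_pow, ha', hb', mul_one]
      inv_mem' := by
        rintro a ⟨ha, ha'⟩
        exact ⟨D.inv_mem ha, by rw [inv_pow, ha', inv_one]⟩ }
  have hNmem : ∀ x, x ∈ N ↔ x ∈ D ∧ x ^ p = 1 := fun x => Iff.rfl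
  refine ⟨p, hp, N, ?_, ?_, ?_, ?_⟩
  · constructor
    rintro n ⟨hn, hn'⟩ g
    exact ⟨hDn.conj_mem _ hn _, by rw [conj_pow, hn']; group⟩
  · intro hbot
    obtain ⟨x, hx⟩ := exists_prime_orderOf_dvd_card' (G := D) p hpd
    have hxN : (x : G) ∈ N := by
      rw [hNmem]
      refine ⟨x.2, ?_⟩
      have h1 : (x : G) ^ orderOf (x : G) = 1 := pow_orderOf_eq_one _
      rwa [Subgroup.orderOf_coe, hx] at h1
    rw [hbot, Subgroup.mem_bot] at hxN
    have h2 : x = 1 := Subtype.ext hxN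
    rw [h2, orderOf_one] at hx
    exact hp.one_lt.ne hx
  · intro x hx y hy
    exact hDab x hx.1 y hy.1
  · have hpg : IsPGroup p N := by
      intro x
      refine ⟨1, ?_⟩
      rw [pow_one]
      exact Subtype.ext x.2.2
    exact (IsPGroup.iff_card.1 hpg)

/-- the step of the induction -/
theorem step [Finite G] (N : Subgroup G) [hN : N.Normal]
    (hab : ∀ x ∈ N, ∀ y ∈ N, x * y = y * x) (k l : ℕ) (hkl : Nat.Coprime k l)
    (hk : Nat.Coprime k (Nat.card N))
    (A B : Subgroup G) (hA : ∀ a ∈ A, a ^ k = 1) (hB : ∀ b ∈ B, b ^ l = 1)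
    (hAB : ∀ g : G, ∃ a ∈ A, ∃ b ∈ B, g = a * b)
    (S Z : Type) [Finite S] [Finite Z] [Crossed G S] [Crossed G Z]
    (hS : ∀ s : S, pr G s ^ k = 1) (hZ : ∀ z : Z, pr G z ^ l = 1)
    (IH : ∀ (A B : Subgroup (G ⧸ N)), (∀ a ∈ A, a ^ k = 1) → (∀ b ∈ B, b ^ l = 1) →
      (∀ g : G ⧸ N, ∃ a ∈ A, ∃ b ∈ B, g = a * b) →
      ∀ (S Z : Type) [Finite S] [Finite Z] [Crossed (G ⧸ N) S] [Crossed (G ⧸ N) Z],
      (∀ s : S, pr (G ⧸ N) s ^ k = 1) → (∀ z : Z, pr (G ⧸ N) z ^ l = 1) →
      cnt (G ⧸ N) S Z ≤ fac A S * fac B Z) :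
    cnt G S Z ≤ fac A S * fac B Z := by
  have hone : ∀ (H : Type) [Group H] (x : H) (i j : ℕ), Nat.Coprime i j → x ^ i = 1 → x ^ j = 1 →
      x = 1 := by
    intro H _ x i j hij h1 h2
    have h6 := Nat.dvd_gcd (orderOf_dvd_of_pow_eq_one h1) (orderOf_dvd_of_pow_eq_one h2)
    rw [hij] at h6
    exact orderOf_eq_one_iff.1 (Nat.dvd_one.1 h6)
  have hNB : N ≤ B := by
    intro n hn
    obtain ⟨a, ha, b, hb, h1⟩ := hAB n
    have h2 : ((a : G) : G ⧸ N) = ((b : G) : G ⧸ N)⁻¹ := by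
      have h3 : ((n : G) : G ⧸ N) = 1 := (QuotientGroup.eq_one_iff n).2 hn
      rw [h1, QuotientGroup.mk_mul] at h3
      exact eq_inv_of_mul_eq_one_left h3
    have h4 : ((a : G) : G ⧸ N) ^ k = 1 := by
      rw [← QuotientGroup.mk_pow, hA a ha]; rfl
    have h5 : ((a : G) : G ⧸ N) ^ l = 1 := by
      rw [h2, inv_pow, ← QuotientGroup.mk_pow, hB b hb]
      simp
    have h6 := hone _ _ k l hkl h4 h5
    have h7 : a ∈ N := (QuotientGroup.eq_one_iff a).1 h6
    have h8 : a ^ Nat.card N = 1 := by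
      have h3 : ((⟨a, h7⟩ : N) ^ Nat.card N : N) = 1 := pow_card_eq_one'
      have h4 := congrArg (Subtype.val) h3
      rw [SubmonoidClass.coe_pow] at h4
      exact h4
    have h9 := hone _ _ k _ hk (hA a ha) h8
    rw [h1, h9, one_mul]
    exact hb
  have h1 := cnt_le N hab k hk S Z hS
  have h2 := fac_SB_le N hab A k hk hA S hS
  have h3 := fac_quot N B hNB Z
  have h4 := IH (A.map (QuotientGroup.mk' N)) (B.map (QuotientGroup.mk' N))
    (by
      rintro _ ⟨a, ha, rfl⟩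
      rw [← map_pow, hA a ha, map_one])
    (by
      rintro _ ⟨b, hb, rfl⟩
      rw [← map_pow, hB b hb, map_one])
    (by
      intro g
      obtain ⟨g, rfl⟩ := QuotientGroup.mk_surjective g
      obtain ⟨a, ha, b, hb, rfl⟩ := hAB g
      exact ⟨_, ⟨a, ha, rfl⟩, _, ⟨b, hb, rfl⟩, rfl⟩)
    (SB N S) (QX N Z)
    (by
      intro y
      obtain ⟨d, rfl⟩ := qmk_surj y
      rw [pr_qmk, ← QuotientGroup.mk_pow]
      have : pr G d ^ k = 1 := hS d.1.1
      rw [this]; rfl)
    (by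
      intro y
      obtain ⟨d, rfl⟩ := qmk_surj y
      rw [pr_qmk, ← QuotientGroup.mk_pow, hZ d]; rfl)
  calc cnt G S Z ≤ Nat.card N * cnt (G ⧸ N) (SB N S) (QX N Z) := h1
    _ ≤ Nat.card N * (fac (A.map (QuotientGroup.mk' N)) (SB N S) *
        fac (B.map (QuotientGroup.mk' N)) (QX N Z)) := Nat.mul_le_mul_left _ h4
    _ = fac (A.map (QuotientGroup.mk' N)) (SB N S) *
        (Nat.card N * fac (B.map (QuotientGroup.mk' N)) (QX N Z)) := by ring
    _ ≤ fac A S * fac B Z := Nat.mul_le_mul h2 h3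

theorem main_ineq : ∀ (n : ℕ) (G : Type) [Group G] [Finite G] [Group.IsSolvable G], Nat.card G = n →
    ∀ (k l : ℕ), Nat.Coprime k l →
    ∀ (A B : Subgroup G), (∀ a ∈ A, a ^ k = 1) → (∀ b ∈ B, b ^ l = 1) →
      (∀ g : G, ∃ a ∈ A, ∃ b ∈ B, g = a * b) →
      ∀ (S Z : Type) [Finite S] [Finite Z] [Crossed G S] [Crossed G Z],
      (∀ s : S, pr G s ^ k = 1) → (∀ z : Z, pr G z ^ l = 1) →
      cnt G S Z ≤ fac A S * fac B Z := by
  intro n
  induction n using Nat.strong_induction_on with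
  | _ n IH =>
  intro G _ _ _ hn k l hkl A B hA hB hAB S Z _ _ _ _ hS hZ
  rcases subsingleton_or_nontrivial G with hG | hG
  · -- trivial group
    unfold cnt fac
    rw [← Nat.card_prod]
    have h1 : ∀ (H : Subgroup G) (g : G), g ∈ H := fun H g => by
      rw [Subsingleton.elim g 1]; exact H.one_mem
    have h2 : ∀ (X : Type) [Crossed G X] (g : G) (x : X), g • x = x := fun X _ g x => by
      rw [Subsingleton.elim g 1, one_smul]
    refine Nat.card_le_card_of_injective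
      (fun t => (⟨(t.1.1, t.1.2.1), h1 _ _, h1 _ _, h2 _ _ _⟩,
        ⟨(t.1.1, t.1.2.2), h1 _ _, h1 _ _, h2 _ _ _⟩)) ?_
    intro t t' h
    simp only [Subtype.mk.injEq, Prod.mk.injEq] at h
    apply Subtype.ext
    exact Prod.ext h.1.1 (Prod.ext h.1.2 h.2.2)
  · obtain ⟨p, hp, N, hNn, hNbot, hab, j, hj⟩ := exists_normal_pgroup G
    have hcard : Nat.card (G ⧸ N) < n := by
      rw [← hn]
      have h1 : Nat.card G = Nat.card (G ⧸ N) * Nat.card N := N.card_eq_card_quotient_mul_card_subgroup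
      have h2 : 1 < Nat.card N := by
        have h3 : Nat.card N ≠ 1 := fun h => hNbot (Subgroup.card_eq_one.1 h)
        have h4 : 0 < Nat.card N := Nat.card_pos
        omega
      have h5 : 0 < Nat.card (G ⧸ N) := Nat.card_pos
      rw [h1]
      nlinarith
    have IH' := IH (Nat.card (G ⧸ N)) hcard (G ⧸ N) rfl
    by_cases hpk : p ∣ k
    · have hpl : Nat.Coprime l (Nat.card N) := by
        rw [hj]
        apply Nat.Coprime.pow_right
        rw [Nat.coprime_comm, Nat.Prime.coprime_iff_not_dvd hp]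
        intro hpl
        have := Nat.dvd_gcd hpk hpl
        rw [hkl] at this
        exact hp.one_lt.ne' (Nat.dvd_one.1 this)
      have hBA : ∀ g : G, ∃ b ∈ B, ∃ a ∈ A, g = b * a := by
        intro g
        obtain ⟨a, ha, b, hb, h⟩ := hAB g⁻¹
        refine ⟨b⁻¹, B.inv_mem hb, a⁻¹, A.inv_mem ha, ?_⟩
        rw [← mul_inv_rev, ← h, inv_inv]
      have h1 := step N hab l k hkl.symm hpl B A hB hA hBA Z S hZ hS
        (fun A' B' hA' hB' hAB' S' Z' _ _ _ _ hS' hZ' =>
          IH' l k hkl.symm A' B' hA' hB' hAB' S' Z' hS' hZ')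
      calc cnt G S Z ≤ cnt G Z S := cnt_comm G S Z
        _ ≤ fac B Z * fac A S := h1
        _ = fac A S * fac B Z := by ring
    · have hpk' : Nat.Coprime k (Nat.card N) := by
        rw [hj]
        apply Nat.Coprime.pow_right
        rw [Nat.coprime_comm, Nat.Prime.coprime_iff_not_dvd hp]
        exact hpk
      exact step N hab k l hkl hpk' A B hA hB hAB S Z hS hZ
        (fun A' B' hA' hB' hAB' S' Z' _ _ _ _ hS' hZ' =>
          IH' k l hkl A' B' hA' hB' hAB' S' Z' hS' hZ')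

end Pool.Agent.H755R3
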