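import Mathlib
import Pool.Agent.H755R3.Induct

/-! `k(G) ≤ k(A) k(B)` for finite solvable groups `G = AB` with `A`, `B` of coprime orders. -/

set_option autoImplicit false

namespace Pool.Agent.H755R3

/-- the elements with `x ^ k = 1` -/
def PT (G : Type) [Group G] (k : ℕ) : Type := {x : G // x ^ k = 1}

instance {G : Type} [Group G] [Finite G] (k : ℕ) : Finite (PT G k) :=
  inferInstanceAs (Finite {x : G // x ^ k = 1})

instance ptCrossed (G : Type) [Group G] (k : ℕ) : Crossed G (PT G k) where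
  smul g x := ⟨g * x.1 * g⁻¹, by rw [conj_pow, x.2]; group⟩
  one_smul := by
    rintro ⟨x, hx⟩
    apply Subtype.ext
    change (1 : G) * x * (1 : G)⁻¹ = x
    group
  mul_smul := by
    rintro a b ⟨x, hx⟩
    apply Subtype.ext
    change (a * b) * x * (a * b)⁻¹ = a * (b * x * b⁻¹) * a⁻¹
    group
  pr' x := x.1
  hpr := by
    rintro g ⟨x, hx⟩
    rfl

theorem pt_smul {G : Type} [Group G] (k : ℕ) (g : G) (x : PT G k) :
    (g • x).1 = g * x.1 * g⁻¹ := rfl

theorem pt_pr {G : Type} [Group G] (k : ℕ) (x : PT G k) : pr G x = x.1 := rfl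

theorem pt_fix {G : Type} [Group G] (k : ℕ) (g : G) (x : PT G k) :
    g • x = x ↔ g * x.1 = x.1 * g := by
  constructor
  · intro h
    have h1 := congrArg Subtype.val h
    rw [pt_smul] at h1
    calc g * x.1 = (g * x.1 * g⁻¹) * g := by group
      _ = x.1 * g := by rw [h1]
  · intro h
    apply Subtype.ext
    rw [pt_smul, h]; group

theorem fac_pt {G : Type} [Group G] [Finite G] (A : Subgroup G) (k : ℕ) :
    fac A (PT G k) ≤ Nat.card (ConjClasses A) * Nat.card A := by
  rw [← card_comm_eq_card_conjClasses_mul_card]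
  unfold fac
  refine Nat.card_le_card_of_injective (fun t => ⟨(⟨t.1.1, t.2.1⟩, ⟨pr G t.1.2, t.2.2.1⟩), ?_⟩) ?_
  · have h := (pt_fix k _ _).1 t.2.2.2
    exact Subtype.ext h
  · intro t t' h
    have h0 := congrArg Subtype.val h
    have h1 : t.1.1 = t'.1.1 := congrArg (fun p : A × A => (p.1 : G)) h0
    have h2 : t.1.2.1 = t'.1.2.1 := congrArg (fun p : A × A => (p.2 : G)) h0
    apply Subtype.ext
    exact Prod.ext h1 (Subtype.ext h2)

theorem card_eq_of_factorization {G : Type} [Group G] [Finite G] (A B : Subgroup G)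
    (hco : Nat.Coprime (Nat.card A) (Nat.card B))
    (hAB : ∀ g : G, ∃ a ∈ A, ∃ b ∈ B, g = a * b) :
    Nat.card G = Nat.card A * Nat.card B := by
  apply le_antisymm
  · rw [← Nat.card_prod]
    refine Nat.card_le_card_of_surjective (fun x : A × B => (x.1 : G) * x.2) ?_
    intro g
    obtain ⟨a, ha, b, hb, rfl⟩ := hAB g
    exact ⟨(⟨a, ha⟩, ⟨b, hb⟩), rfl⟩
  · apply Nat.le_of_dvd Nat.card_pos
    exact hco.mul_dvd_of_dvd_of_dvd A.card_subgroup_dvd_card B.card_subgroup_dvd_card

theorem classes_le {G : Type} [Group G] [Finite G] [Group.IsSolvable G] (A B : Subgroup G)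
    (hco : Nat.Coprime (Nat.card A) (Nat.card B))
    (hAB : ∀ g : G, ∃ a ∈ A, ∃ b ∈ B, g = a * b) :
    Nat.card (ConjClasses G) ≤ Nat.card (ConjClasses A) * Nat.card (ConjClasses B) := by
  have hcard := card_eq_of_factorization A B hco hAB
  set k := Nat.card A with hk
  set l := Nat.card B with hl
  have hpow : ∀ (H : Subgroup G) (a : G), a ∈ H → a ^ Nat.card H = 1 := by
    intro H a ha
    have h3 : ((⟨a, ha⟩ : H) ^ Nat.card H : H) = 1 := pow_card_eq_one'
    have h4 := congrArg (Subtype.val) h3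
    rw [SubmonoidClass.coe_pow] at h4
    exact h4
  have hmain := main_ineq (Nat.card G) G rfl k l hco A B (fun a ha => hpow A a ha)
    (fun b hb => hpow B b hb) hAB (PT G k) (PT G l) (fun s => s.2) (fun z => z.2)
  have hG : ∀ h : G, h ^ (k * l) = 1 := by
    intro h
    rw [← hcard]; exact pow_card_eq_one'
  obtain ⟨e, he1, he2⟩ : ∃ e : ℕ, e ≡ 1 [MOD k] ∧ e ≡ 0 [MOD l] := by
    obtain ⟨e, he⟩ := Nat.chineseRemainder hco 1 0
    exact ⟨e, he.1, he.2⟩
  obtain ⟨f, hf1, hf2⟩ : ∃ e : ℕ, e ≡ 0 [MOD k] ∧ e ≡ 1 [MOD l] := by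
    obtain ⟨e, he⟩ := Nat.chineseRemainder hco 0 1
    exact ⟨e, he.1, he.2⟩
  have hek : ∀ h : G, (h ^ e) ^ k = 1 := by
    intro h
    obtain ⟨e', rfl⟩ := Nat.modEq_zero_iff_dvd.1 he2
    rw [← pow_mul, show l * e' * k = k * l * e' by ring, pow_mul, hG, one_pow]
  have hfl : ∀ h : G, (h ^ f) ^ l = 1 := by
    intro h
    obtain ⟨e', rfl⟩ := Nat.modEq_zero_iff_dvd.1 hf1
    rw [← pow_mul, show k * e' * l = k * l * e' by ring, pow_mul, hG, one_pow]
  have hef : ∀ h : G, h ^ e * h ^ f = h := by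
    intro h
    rw [← pow_add]
    have h1 : e + f ≡ 1 [MOD (k * l)] := by
      rw [← Nat.modEq_and_modEq_iff_modEq_mul hco]
      exact ⟨by simpa using he1.add hf1, by simpa using he2.add hf2⟩
    have h2 : h ^ (e + f) = h ^ 1 := by
      rw [pow_eq_pow_iff_modEq]
      exact h1.of_dvd (orderOf_dvd_of_pow_eq_one (hG h))
    rw [h2, pow_one]
  have h1 : Nat.card {p : G × G // Commute p.1 p.2} ≤ cnt G (PT G k) (PT G l) := by
    unfold cnt
    refine Nat.card_le_card_of_injective
      (fun t => ⟨(t.1.1, ⟨t.1.2 ^ e, hek _⟩, ⟨t.1.2 ^ f, hfl _⟩), ?_, ?_, ?_, ?_⟩) ?_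
    · exact (pt_fix k _ _).2 (t.2.pow_right e)
    · exact (pt_fix l _ _).2 (t.2.pow_right f)
    · exact (pt_fix k _ _).2 ((Commute.refl t.1.2).pow_pow f e)
    · exact (pt_fix l _ _).2 ((Commute.refl t.1.2).pow_pow e f)
    · intro t t' h
      have h0 := congrArg Subtype.val h
      have h1 : t.1.1 = t'.1.1 := congrArg (fun p : G × PT G k × PT G l => p.1) h0
      have h2' : t.1.2 ^ e = t'.1.2 ^ e :=
        congrArg (fun p : G × PT G k × PT G l => p.2.1.1) h0
      have h3' : t.1.2 ^ f = t'.1.2 ^ f :=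
        congrArg (fun p : G × PT G k × PT G l => p.2.2.1) h0
      apply Subtype.ext
      refine Prod.ext h1 ?_
      rw [← hef t.1.2, ← hef t'.1.2, h2', h3']
  rw [card_comm_eq_card_conjClasses_mul_card] at h1
  have h2 : fac A (PT G k) ≤ Nat.card (ConjClasses A) * k := fac_pt A k
  have h3 : fac B (PT G l) ≤ Nat.card (ConjClasses B) * l := fac_pt B l
  have h4 : Nat.card (ConjClasses G) * (k * l) ≤
      (Nat.card (ConjClasses A) * Nat.card (ConjClasses B)) * (k * l) := by
    calc Nat.card (ConjClasses G) * (k * l) = Nat.card (ConjClasses G) * Nat.card G := by rw [hcard]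
      _ ≤ fac A (PT G k) * fac B (PT G l) := h1.trans hmain
      _ ≤ (Nat.card (ConjClasses A) * k) * (Nat.card (ConjClasses B) * l) := Nat.mul_le_mul h2 h3
      _ = _ := by ring
  have hpos : 0 < k * l := by rw [← hcard]; exact Nat.card_pos
  exact Nat.le_of_mul_le_mul_right h4 hpos

end Pool.Agent.H755R3
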