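import Mathlib
import Pool.Agent.H755R3.Final

/-! `k(G) ≤ ∏ k(P)` over Sylow subgroups, for finite solvable groups. -/

set_option autoImplicit false

namespace Pool.Agent.H755R3

/-- isomorphic groups have the same number of conjugacy classes -/
theorem card_classes_congr {H K : Type} [Group H] [Group K] [Finite H] [Finite K] (e : H ≃* K) :
    Nat.card (ConjClasses H) = Nat.card (ConjClasses K) := by
  apply le_antisymm
  · exact Nat.card_le_card_of_surjective (ConjClasses.map e.symm.toMonoidHom)
      (ConjClasses.map_surjective e.symm.surjective)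
  · exact Nat.card_le_card_of_surjective (ConjClasses.map e.toMonoidHom)
      (ConjClasses.map_surjective e.surjective)

/-- existence of a `p`-complement in a finite solvable group -/
theorem exists_complement (p : ℕ) (hp : p.Prime) : ∀ (n : ℕ) (G : Type) [Group G] [Finite G]
    [Group.IsSolvable G], Nat.card G = n →
    ∃ H : Subgroup G, ¬ p ∣ Nat.card H ∧ ∃ j, Nat.card G = p ^ j * Nat.card H := by
  intro n
  induction n using Nat.strong_induction_on with
  | _ n IH =>
  intro G _ _ _ hn
  rcases subsingleton_or_nontrivial G with hG | hG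
  · refine ⟨⊤, ?_, 0, ?_⟩
    · rw [Subgroup.card_top, Nat.card_of_subsingleton (1 : G)]
      intro h
      exact hp.one_lt.ne' (Nat.dvd_one.1 h)
    · rw [Subgroup.card_top]; simp
  · obtain ⟨q, hq, N, hNn, hNbot, hab, j, hj⟩ := exists_normal_pgroup G
    have hGN : Nat.card G = Nat.card (G ⧸ N) * Nat.card N := N.card_eq_card_quotient_mul_card_subgroup
    have hcard : Nat.card (G ⧸ N) < n := by
      rw [← hn]
      have h2 : 1 < Nat.card N := by
        have h3 : Nat.card N ≠ 1 := fun h => hNbot (Subgroup.card_eq_one.1 h)
        have h4 : 0 < Nat.card N := Nat.card_pos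
        omega
      have h5 : 0 < Nat.card (G ⧸ N) := Nat.card_pos
      rw [hGN]
      nlinarith
    obtain ⟨K', hK', i, hi⟩ := IH _ hcard (G ⧸ N) rfl
    set K := K'.comap (QuotientGroup.mk' N) with hK
    have hNK : N ≤ K := by
      intro x hx
      rw [hK, Subgroup.mem_comap]
      have : (QuotientGroup.mk' N) x = 1 := (QuotientGroup.eq_one_iff x).2 hx
      rw [this]; exact K'.one_mem
    have hKcard : Nat.card K = Nat.card K' * Nat.card N := by
      have h1 : K.index = K'.index := by
        rw [hK]
        exact Subgroup.index_comap_of_surjective K' (QuotientGroup.mk'_surjective N)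
      have h2 := K.card_mul_index
      have h3 := K'.card_mul_index
      have h4 : 0 < K'.index := Nat.pos_of_ne_zero Subgroup.index_ne_zero_of_finite
      have h5 : Nat.card K * K'.index = Nat.card K' * Nat.card N * K'.index := by
        rw [← h1, h2, hGN, ← h3, h1]; ring
      exact Nat.eq_of_mul_eq_mul_right h4 h5
    by_cases hqp : q = p
    · subst hqp
      have hcop : Nat.Coprime (Nat.card (N.subgroupOf K)) (N.subgroupOf K).index := by
        have h1 : Nat.card (N.subgroupOf K) = Nat.card N :=
          Nat.card_congr (Subgroup.subgroupOfEquivOfLe hNK).toEquiv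
        have h2 := (N.subgroupOf K).card_mul_index
        rw [h1, hKcard, mul_comm] at h2
        have h3 : (N.subgroupOf K).index = Nat.card K' := Nat.eq_of_mul_eq_mul_right Nat.card_pos h2
        rw [h1, h3, hj]
        exact Nat.Coprime.pow_left _ ((Nat.Prime.coprime_iff_not_dvd hp).2 hK')
      obtain ⟨H0, hH0⟩ := Subgroup.exists_right_complement'_of_coprime hcop
      have h1 : Nat.card (N.subgroupOf K) = Nat.card N :=
          Nat.card_congr (Subgroup.subgroupOfEquivOfLe hNK).toEquiv
      have h2 := hH0.card_mul_card
      rw [h1, hKcard, mul_comm] at h2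
      have h3 : Nat.card H0 = Nat.card K' := Nat.eq_of_mul_eq_mul_right Nat.card_pos h2
      have h4 : Nat.card (H0.map K.subtype) = Nat.card K' := by
        rw [← h3]
        exact Nat.card_congr (H0.equivMapOfInjective _ K.subtype_injective).symm.toEquiv
      refine ⟨H0.map K.subtype, ?_, i + j, ?_⟩
      · rw [h4]; exact hK'
      · rw [h4, hGN, hi, hj, pow_add]; ring
    · refine ⟨K, ?_, i, ?_⟩
      · rw [hKcard, hj]
        intro h
        rcases (Nat.Prime.dvd_mul hp).1 h with h | h
        · exact hK' h
        · have := hp.dvd_of_dvd_pow h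
          exact hqp ((Nat.prime_dvd_prime_iff_eq hp hq).1 this).symm
      · rw [hGN, hKcard, hi]; ring

theorem sylow_le : ∀ (n : ℕ) (G : Type) [Group G] [Finite G] [Group.IsSolvable G]
    (_ : Nat.card G = n) (f : ℕ → ℕ),
    (∀ p ∈ (Nat.card G).primeFactors,
      ∃ P : Sylow p G, f p = Nat.card (ConjClasses ↥(P : Subgroup G))) →
    Nat.card (ConjClasses G) ≤ ∏ p ∈ (Nat.card G).primeFactors, f p := by
  intro n
  induction n using Nat.strong_induction_on with
  | _ n IH =>
  intro G _ _ _ hn f hf
  by_cases h1 : Nat.card G = 1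
  · rw [h1, Nat.primeFactors_one, Finset.prod_empty]
    have : Subsingleton G := (Nat.card_eq_one_iff_unique.1 h1).1
    have : Subsingleton (ConjClasses G) := by
      constructor
      intro a b
      obtain ⟨x, rfl⟩ := ConjClasses.exists_rep a
      obtain ⟨y, rfl⟩ := ConjClasses.exists_rep b
      rw [Subsingleton.elim x y]
    exact Finite.card_le_one_iff_subsingleton.2 this
  · obtain ⟨p, hp, hpG⟩ := Nat.exists_prime_and_dvd h1
    have _ : Fact p.Prime := ⟨hp⟩
    obtain ⟨H, hpH, j, hj⟩ := exists_complement p hp n G hn
    have hG0 : Nat.card G ≠ 0 := Nat.card_pos.ne'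
    have hH0 : Nat.card H ≠ 0 := Nat.card_pos.ne'
    have hpmem : p ∈ (Nat.card G).primeFactors := Nat.mem_primeFactors.2 ⟨hp, hpG, hG0⟩
    obtain ⟨P, hP⟩ := hf p hpmem
    have hj0 : j ≠ 0 := by
      rintro rfl
      rw [pow_zero, one_mul] at hj
      rw [hj] at hpG
      exact hpH hpG
    have hlt : Nat.card H < n := by
      rw [← hn, hj]
      have h2 : 1 < p ^ j := Nat.one_lt_pow hj0 hp.one_lt
      have h3 : 0 < Nat.card H := Nat.card_pos
      nlinarith
    -- factorization of the order
    have hfac : ∀ q, q ≠ p → (Nat.card G).factorization q = (Nat.card H).factorization q := by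
      intro q hq
      rw [hj, Nat.factorization_mul (pow_ne_zero _ hp.ne_zero) hH0, hp.factorization_pow]
      simp [Finsupp.single_apply, hq.symm]
    have hfacp : (Nat.card G).factorization p = j := by
      rw [hj, Nat.factorization_mul (pow_ne_zero _ hp.ne_zero) hH0, hp.factorization_pow]
      simp [Nat.factorization_eq_zero_of_not_dvd hpH]
    have hPcard : Nat.card (P : Subgroup G) = p ^ j := by
      rw [← hfacp]; exact P.card_eq_multiplicity
    have hcop : Nat.Coprime (Nat.card (P : Subgroup G)) (Nat.card H) := by
      rw [hPcard]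
      exact Nat.Coprime.pow_left _ ((Nat.Prime.coprime_iff_not_dvd hp).2 hpH)
    have hcompl : Subgroup.IsComplement' (P : Subgroup G) H :=
      Subgroup.isComplement'_of_coprime (by rw [hPcard, hj]) hcop
    have hAB : ∀ g : G, ∃ a ∈ (P : Subgroup G), ∃ b ∈ H, g = a * b := by
      intro g
      obtain ⟨⟨a, b⟩, hab, _⟩ := (Subgroup.isComplement_iff_existsUnique.1 hcompl) g
      exact ⟨a, a.2, b, b.2, hab.symm⟩
    have hmain := classes_le (P : Subgroup G) H hcop hAB
    have hIH := IH (Nat.card H) hlt H rfl f (by
      intro q hq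
      obtain ⟨hqp, hqH, _⟩ := Nat.mem_primeFactors.1 hq
      have _ : Fact q.Prime := ⟨hqp⟩
      have hne : q ≠ p := by
        rintro rfl
        exact hpH hqH
      have hqG : q ∈ (Nat.card G).primeFactors :=
        Nat.mem_primeFactors.2 ⟨hqp, by rw [hj]; exact Dvd.dvd.mul_left hqH _, hG0⟩
      obtain ⟨Q, hQ⟩ := hf q hqG
      let Q' : Sylow q H := default
      have hQ'card : Nat.card (((Q' : Subgroup H)).map H.subtype) =
          q ^ (Nat.card G).factorization q := by
        rw [hfac q hne, ← Q'.card_eq_multiplicity]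
        exact Nat.card_congr
          (((Q' : Subgroup H)).equivMapOfInjective _ H.subtype_injective).symm.toEquiv
      let Q'' : Sylow q G := Sylow.ofCard (((Q' : Subgroup H)).map H.subtype) hQ'card
      refine ⟨Q', ?_⟩
      rw [hQ]
      have e1 : (Q : Subgroup G) ≃* (Q'' : Subgroup G) := Sylow.equiv Q Q''
      have e2 : (Q' : Subgroup H) ≃* (Q'' : Subgroup G) :=
        ((Q' : Subgroup H)).equivMapOfInjective _ H.subtype_injective
      exact card_classes_congr (e1.trans e2.symm))
    have hset : (Nat.card G).primeFactors = insert p (Nat.card H).primeFactors := by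
      rw [hj, Nat.primeFactors_mul (pow_ne_zero _ hp.ne_zero) hH0, Nat.primeFactors_prime_pow hj0 hp]
      rfl
    rw [hset, Finset.prod_insert (by
      intro h
      exact hpH (Nat.mem_primeFactors.1 h).2.1), hP]
    exact hmain.trans (Nat.mul_le_mul_left _ hIH)

end Pool.Agent.H755R3
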